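import Mathlib

/-!
# Two-coloured line arrangements: counting lemmas
-/

set_option autoImplicit false

namespace Pool.Agent.H875.CL

/-- Lines of two colours (`A` and `B`) in a plane; `L P` is the set of the lines through the point `P`, and `T` is a
finite set of points which contains the intersection points of the lines. -/
structure Arr (α β : Type) [DecidableEq α] [DecidableEq β] where
  A : Finset α
  B : Finset α
  T : Finset β
  L : β → Finset α
  disj : Disjoint A B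
  unique : ∀ P Q, P ≠ Q → ∀ i ∈ A ∪ B, ∀ j ∈ A ∪ B, i ∈ L P → i ∈ L Q → j ∈ L P → j ∈ L Q → i = j
  meet : ∀ i ∈ A ∪ B, ∀ j ∈ A ∪ B, i ≠ j → ∃ P ∈ T, i ∈ L P ∧ j ∈ L P

variable {α β : Type} [DecidableEq α] [DecidableEq β] (X : Arr α β)

namespace Arr

/-- number of the `A`-lines through `P` -/
def m1 (P : β) : ℕ := (X.A ∩ X.L P).card
/-- number of the `B`-lines through `P` -/
def m2 (P : β) : ℕ := (X.B ∩ X.L P).card
/-- number of the common `A`-lines of `P` and `Q` -/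
def a2 (P Q : β) : ℕ := (X.A ∩ (X.L P ∩ X.L Q)).card
/-- number of the common `B`-lines of `P` and `Q` -/
def b2 (P Q : β) : ℕ := (X.B ∩ (X.L P ∩ X.L Q)).card

/-- exchange of the colours -/
def swap : Arr α β where
  A := X.B
  B := X.A
  T := X.T
  L := X.L
  disj := X.disj.symm
  unique := fun P Q h i hi j hj => X.unique P Q h i (by rw [Finset.union_comm]; exact hi) j
    (by rw [Finset.union_comm]; exact hj)
  meet := fun i hi j hj => X.meet i (by rw [Finset.union_comm]; exact hi) j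
    (by rw [Finset.union_comm]; exact hj)

@[simp] lemma swap_m1 (P : β) : X.swap.m1 P = X.m2 P := rfl
@[simp] lemma swap_m2 (P : β) : X.swap.m2 P = X.m1 P := rfl
@[simp] lemma swap_a2 (P Q : β) : X.swap.a2 P Q = X.b2 P Q := rfl
@[simp] lemma swap_b2 (P Q : β) : X.swap.b2 P Q = X.a2 P Q := rfl
@[simp] lemma swap_T : X.swap.T = X.T := rfl
@[simp] lemma swap_A : X.swap.A = X.B := rfl
@[simp] lemma swap_B : X.swap.B = X.A := rfl

/-- two points have at most one common line -/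
lemma ab_le {P Q : β} (h : P ≠ Q) : X.a2 P Q + X.b2 P Q ≤ 1 := by
  unfold a2 b2
  rw [← Finset.card_union_of_disjoint, ← Finset.union_inter_distrib_right]
  · rw [Finset.card_le_one]
    intro i hi j hj
    simp only [Finset.mem_inter] at hi hj
    exact X.unique P Q h i hi.1 j hj.1 hi.2.1 hi.2.2 hj.2.1 hj.2.2
  · exact X.disj.mono Finset.inter_subset_left Finset.inter_subset_left

lemma a2_comm (P Q : β) : X.a2 P Q = X.a2 Q P := by
  unfold a2
  rw [Finset.inter_comm (X.L P)]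

lemma b2_comm (P Q : β) : X.b2 P Q = X.b2 Q P := by
  unfold b2
  rw [Finset.inter_comm (X.L P)]

lemma m1_le (P : β) : X.m1 P ≤ X.A.card := Finset.card_le_card Finset.inter_subset_left
lemma m2_le (P : β) : X.m2 P ≤ X.B.card := Finset.card_le_card Finset.inter_subset_left

/-- Bonferroni for two points -/
lemma bonfA2 (P Q : β) : X.m1 P + X.m1 Q ≤ X.A.card + X.a2 P Q := by
  unfold m1 a2
  have h1 := Finset.card_union_add_card_inter (X.A ∩ X.L P) (X.A ∩ X.L Q)
  have h2 : X.A ∩ X.L P ∩ (X.A ∩ X.L Q) = X.A ∩ (X.L P ∩ X.L Q) := by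
    ext i
    simp only [Finset.mem_inter]
    tauto
  have h3 : (X.A ∩ X.L P ∪ X.A ∩ X.L Q).card ≤ X.A.card :=
    Finset.card_le_card (Finset.union_subset Finset.inter_subset_left Finset.inter_subset_left)
  rw [h2] at h1
  omega

lemma bonfB2 (P Q : β) : X.m2 P + X.m2 Q ≤ X.B.card + X.b2 P Q := X.swap.bonfA2 P Q

/-- Bonferroni for three points -/
lemma bonfA3 (P Q R : β) :
    X.m1 P + X.m1 Q + X.m1 R ≤ X.A.card + X.a2 P Q + X.a2 P R + X.a2 Q R := by
  unfold m1 a2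
  have h1 := Finset.card_union_add_card_inter (X.A ∩ X.L P) (X.A ∩ X.L Q)
  have h2 : X.A ∩ X.L P ∩ (X.A ∩ X.L Q) = X.A ∩ (X.L P ∩ X.L Q) := by
    ext i
    simp only [Finset.mem_inter]
    tauto
  have h3 := Finset.card_union_add_card_inter (X.A ∩ X.L P ∪ X.A ∩ X.L Q) (X.A ∩ X.L R)
  have h4 : (X.A ∩ X.L P ∪ X.A ∩ X.L Q) ∩ (X.A ∩ X.L R) =
      X.A ∩ (X.L P ∩ X.L R) ∪ X.A ∩ (X.L Q ∩ X.L R) := by
    ext i
    simp only [Finset.mem_inter, Finset.mem_union]
    tauto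
  have h5 := Finset.card_union_le (X.A ∩ (X.L P ∩ X.L R)) (X.A ∩ (X.L Q ∩ X.L R))
  have h6 : (X.A ∩ X.L P ∪ X.A ∩ X.L Q ∪ X.A ∩ X.L R).card ≤ X.A.card :=
    Finset.card_le_card (Finset.union_subset (Finset.union_subset Finset.inter_subset_left
      Finset.inter_subset_left) Finset.inter_subset_left)
  rw [h2] at h1
  rw [h4] at h3
  omega

lemma bonfB3 (P Q R : β) :
    X.m2 P + X.m2 Q + X.m2 R ≤ X.B.card + X.b2 P Q + X.b2 P R + X.b2 Q R := X.swap.bonfA3 P Q R

/-- the pairs of lines are counted by the points -/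
lemma pairs (E : Finset (α × α)) (hE : ∀ x ∈ E, x.1 ∈ X.A ∪ X.B ∧ x.2 ∈ X.A ∪ X.B ∧ x.1 ≠ x.2) :
    ∑ P ∈ X.T, (E.filter fun x => x.1 ∈ X.L P ∧ x.2 ∈ X.L P).card = E.card := by
  simp_rw [Finset.card_filter]
  rw [Finset.sum_comm, Finset.card_eq_sum_ones]
  refine Finset.sum_congr rfl fun x hx => ?_
  obtain ⟨h1, h2, h3⟩ := hE x hx
  rw [← Finset.card_filter, Finset.card_eq_one]
  obtain ⟨P, hP, hP1, hP2⟩ := X.meet _ h1 _ h2 h3
  refine ⟨P, ?_⟩
  ext Q
  simp only [Finset.mem_filter, Finset.mem_singleton]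
  constructor
  · rintro ⟨_, hQ1, hQ2⟩
    by_contra hne
    exact h3 (X.unique Q P hne _ h1 _ h2 hQ1 hP1 hQ2 hP2)
  · rintro rfl
    exact ⟨hP, hP1, hP2⟩

lemma sumA : ∑ P ∈ X.T, (X.m1 P * X.m1 P - X.m1 P) = X.A.card * X.A.card - X.A.card := by
  rw [← Finset.offDiag_card, ← X.pairs X.A.offDiag]
  · refine Finset.sum_congr rfl fun P _ => ?_
    unfold m1
    rw [← Finset.offDiag_card]
    congr 1
    ext ⟨i, j⟩
    simp only [Finset.mem_offDiag, Finset.mem_inter, Finset.mem_filter]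
    tauto
  · rintro ⟨i, j⟩ hx
    rw [Finset.mem_offDiag] at hx
    exact ⟨Finset.mem_union_left _ hx.1, Finset.mem_union_left _ hx.2.1, hx.2.2⟩

lemma sumB : ∑ P ∈ X.T, (X.m2 P * X.m2 P - X.m2 P) = X.B.card * X.B.card - X.B.card := X.swap.sumA

lemma sumAB : ∑ P ∈ X.T, X.m1 P * X.m2 P = X.A.card * X.B.card := by
  rw [← Finset.card_product, ← X.pairs (X.A ×ˢ X.B)]
  · refine Finset.sum_congr rfl fun P _ => ?_
    unfold m1 m2
    rw [← Finset.card_product]
    congr 1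
    ext ⟨i, j⟩
    simp only [Finset.mem_product, Finset.mem_inter, Finset.mem_filter]
    tauto
  · rintro ⟨i, j⟩ hx
    rw [Finset.mem_product] at hx
    refine ⟨Finset.mem_union_left _ hx.1, Finset.mem_union_right _ hx.2, ?_⟩
    intro h
    exact Finset.disjoint_left.1 X.disj hx.1 (by rw [h]; exact hx.2)

/-- convexity -/
lemma convA (S : Finset β) (t : ℕ) :
    (2 * t * ∑ P ∈ S, (X.m1 P : ℤ)) - t * (t + 1) * X.A.card ≤ ∑ x ∈ S.offDiag, (X.a2 x.1 x.2 : ℤ) := by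
  have h1 : ∑ x ∈ S.offDiag, (X.a2 x.1 x.2 : ℤ) =
      ∑ i ∈ X.A, (((S.filter fun P => i ∈ X.L P).offDiag).card : ℤ) := by
    unfold a2
    have h2 : ∀ x : β × β, ((X.A ∩ (X.L x.1 ∩ X.L x.2)).card : ℤ) =
        ∑ i ∈ X.A, if (i ∈ X.L x.1 ∧ i ∈ X.L x.2) then (1 : ℤ) else 0 := by
      intro x
      rw [← Finset.sum_filter, Finset.sum_const, nsmul_eq_mul, mul_one]
      congr 2
      ext i
      simp only [Finset.mem_inter, Finset.mem_filter]
    simp_rw [h2]
    rw [Finset.sum_comm]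
    refine Finset.sum_congr rfl fun i _ => ?_
    rw [← Finset.sum_filter, Finset.sum_const, nsmul_eq_mul, mul_one]
    congr 2
    ext ⟨P, Q⟩
    simp only [Finset.mem_offDiag, Finset.mem_filter]
    tauto
  have h3 : ∑ P ∈ S, (X.m1 P : ℤ) = ∑ i ∈ X.A, ((S.filter fun P => i ∈ X.L P).card : ℤ) := by
    unfold m1
    have h2 : ∀ P : β, ((X.A ∩ X.L P).card : ℤ) = ∑ i ∈ X.A, if i ∈ X.L P then (1 : ℤ) else 0 := by
      intro P
      rw [← Finset.sum_filter, Finset.sum_const, nsmul_eq_mul, mul_one]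
      congr 2
    simp_rw [h2]
    rw [Finset.sum_comm]
    refine Finset.sum_congr rfl fun i _ => ?_
    rw [← Finset.sum_filter, Finset.sum_const, nsmul_eq_mul, mul_one]
  rw [h1, h3, Finset.mul_sum, Finset.card_eq_sum_ones, Nat.cast_sum, Finset.mul_sum,
    ← Finset.sum_sub_distrib]
  refine Finset.sum_le_sum fun i _ => ?_
  rw [Finset.offDiag_card]
  set c := (S.filter fun P => i ∈ X.L P).card
  have h4 : ((c * c - c : ℕ) : ℤ) = c * c - c := by
    rw [Nat.cast_sub (Nat.le_mul_self c)]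
    push_cast
    ring
  rw [h4]
  push_cast
  have h5 : (0 : ℤ) ≤ ((c : ℤ) - t) * (c - t - 1) := by
    rcases lt_or_ge (t : ℤ) c with h | h
    · exact mul_nonneg (by omega) (by omega)
    · nlinarith
  nlinarith

lemma convB (S : Finset β) (t : ℕ) :
    (2 * t * ∑ P ∈ S, (X.m2 P : ℤ)) - t * (t + 1) * X.B.card ≤ ∑ x ∈ S.offDiag, (X.b2 x.1 x.2 : ℤ) :=
  X.swap.convA S t

/-- the main tool -/
lemma conv (S : Finset β) (t u : ℕ) :
    (2 * t * ∑ P ∈ S, (X.m1 P : ℤ)) - t * (t + 1) * X.A.card +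
      ((2 * u * ∑ P ∈ S, (X.m2 P : ℤ)) - u * (u + 1) * X.B.card) ≤ S.card * (S.card - 1) := by
  refine (add_le_add (X.convA S t) (X.convB S u)).trans ?_
  rw [← Finset.sum_add_distrib]
  have h1 : ∑ x ∈ S.offDiag, ((X.a2 x.1 x.2 : ℤ) + X.b2 x.1 x.2) ≤ ∑ x ∈ S.offDiag, (1 : ℤ) := by
    refine Finset.sum_le_sum fun x hx => ?_
    rw [Finset.mem_offDiag] at hx
    have := X.ab_le hx.2.2
    exact_mod_cast this
  refine h1.trans (le_of_eq ?_)
  rw [Finset.sum_const, nsmul_eq_mul, mul_one, Finset.offDiag_card, Nat.cast_sub (Nat.le_mul_self _)]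
  push_cast
  ring

end Arr

end Pool.Agent.H875.CL
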