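import Mathlib

/-!
# The numerical part for at least twelve lines
-/

set_option autoImplicit false

namespace Pool.Agent.H875.CL

/-- contribution of a point of multiplicity `m` to Hirzebruch's inequality -/
def hz (m : ℕ) : ℤ := if m = 2 then 4 else if m = 3 then 3 else if m ≤ 4 then 0 else -4 * (2 * m - 9)

/-- nine times the number of conditions which are lost at a point -/
def loss (a b : ℕ) : ℤ :=
  5 * (a * (a - 1)) + 5 * (b * (b - 1)) + 8 * (a * b) -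
    9 * (((a + 2 * b) / 3 : ℕ) * (((a + 2 * b) / 3 : ℕ) - 1)) -
    9 * (((2 * a + b) / 3 : ℕ) * (((2 * a + b) / 3 : ℕ) - 1))

lemma loss_of_dvd {a b : ℕ} (h : 3 ∣ a + 2 * b) : loss a b = 4 * (a + b) := by
  obtain ⟨x, hx⟩ := h
  obtain ⟨y, hy⟩ : ∃ y, 2 * a + b = 3 * y := ⟨(2 * a + b) / 3, by omega⟩
  have h1 : (a + 2 * b) / 3 = x := by omega
  have h2 : (2 * a + b) / 3 = y := by omega
  unfold loss
  rw [h1, h2]
  have ha : (a : ℤ) = 2 * y - x := by omega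
  have hb : (b : ℤ) = 2 * x - y := by omega
  rw [ha, hb]
  ring

lemma loss_of_not_dvd {a b : ℕ} (h : ¬ 3 ∣ a + 2 * b) : (12 * (a + b) - 14 : ℤ) ≤ loss a b := by
  have h3 : (a + 2 * b) % 3 = 1 ∨ (a + 2 * b) % 3 = 2 := by omega
  rcases h3 with h3 | h3
  · obtain ⟨x, hx⟩ : ∃ x, a + 2 * b = 3 * x + 1 := ⟨(a + 2 * b) / 3, by omega⟩
    obtain ⟨y, hy⟩ : ∃ y, 2 * a + b = 3 * y + 2 := ⟨(2 * a + b) / 3, by omega⟩
    have h1 : (a + 2 * b) / 3 = x := by omega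
    have h2 : (2 * a + b) / 3 = y := by omega
    have h4 : loss a b = 10 * (a + b) - 10 + 6 * y := by
      unfold loss
      rw [h1, h2]
      have ha : (a : ℤ) = 2 * y - x + 1 := by omega
      have hb : (b : ℤ) = 2 * x - y := by omega
      rw [ha, hb]
      ring
    rw [h4]
    omega
  · obtain ⟨x, hx⟩ : ∃ x, a + 2 * b = 3 * x + 2 := ⟨(a + 2 * b) / 3, by omega⟩
    obtain ⟨y, hy⟩ : ∃ y, 2 * a + b = 3 * y + 1 := ⟨(2 * a + b) / 3, by omega⟩
    have h1 : (a + 2 * b) / 3 = x := by omega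
    have h2 : (2 * a + b) / 3 = y := by omega
    have h4 : loss a b = 10 * (a + b) - 10 + 6 * x := by
      unfold loss
      rw [h1, h2]
      have ha : (a : ℤ) = 2 * y - x := by omega
      have hb : (b : ℤ) = 2 * x - y + 1 := by omega
      rw [ha, hb]
      ring
    rw [h4]
    omega

lemma loss_ge {a b : ℕ} (h2 : 2 ≤ a + b) : (4 * (a + b) : ℤ) ≤ loss a b := by
  by_cases h : 3 ∣ a + 2 * b
  · rw [loss_of_dvd h]
  · refine le_trans ?_ (loss_of_not_dvd h)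
    omega

/-- the contribution of one point -/
lemma point_ineq {w a b : ℕ} (hw : 12 ≤ w) (h2 : 2 ≤ a + b)
    (hok : a + b + 4 ≤ w ∨ (a + b + 3 ≤ w ∧ ¬ 3 ∣ a + 2 * b)) :
    4 * (5 * (w : ℤ) - 38) * ((a + b) * (a + b - 1)) + 2 * (w - 4) * (w - 6) * hz (a + b) ≤
      (w + 2) * (w - 7) * loss a b := by
  have hwz : (12 : ℤ) ≤ w := by exact_mod_cast hw
  have hpos : (0 : ℤ) ≤ (w + 2) * (w - 7) := mul_nonneg (by linarith) (by linarith)
  have hl := loss_ge h2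
  obtain ⟨m, hm⟩ : ∃ m, m = a + b := ⟨_, rfl⟩
  have hmz : (a : ℤ) + b = m := by rw [hm]; push_cast; ring
  rw [hmz] at hl ⊢
  rw [← hm] at h2 ⊢
  obtain ⟨u, hu⟩ : ∃ u, w = u + 12 := ⟨w - 12, by omega⟩
  have huz : (w : ℤ) = u + 12 := by rw [hu]; push_cast; ring
  have hu0 : (0 : ℤ) ≤ u := Int.natCast_nonneg u
  rcases Nat.lt_or_ge m 5 with h5 | h5
  · refine le_trans ?_ (mul_le_mul_of_nonneg_left hl hpos)
    have h6 : m = 2 ∨ m = 3 ∨ m = 4 := by omega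
    rcases h6 with rfl | rfl | rfl
    · unfold hz
      norm_num
      rw [huz]
      nlinarith
    · unfold hz
      norm_num
      rw [huz]
      nlinarith
    · unfold hz
      norm_num
      rw [huz]
      nlinarith
  · have hh : hz m = -4 * (2 * m - 9) := by
      unfold hz
      rw [if_neg (by omega), if_neg (by omega), if_neg (by omega)]
    rw [hh]
    have hm5 : (5 : ℤ) ≤ m := by exact_mod_cast h5
    by_cases h4 : m + 4 ≤ w
    · refine le_trans ?_ (mul_le_mul_of_nonneg_left hl hpos)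
      have h7 : (0 : ℤ) ≤ (w - 4 - m) * ((5 * w - 38) * m - 18 * (w - 6)) := by
        have h4z : (m : ℤ) + 4 ≤ w := by exact_mod_cast h4
        refine mul_nonneg (by linarith) ?_
        nlinarith
      nlinarith
    · have h8 : m + 3 = w ∧ ¬ 3 ∣ a + 2 * b := by
        rcases hok with h | h
        · omega
        · exact ⟨by omega, h.2⟩
      have hl2 := loss_of_not_dvd h8.2
      rw [hmz] at hl2
      refine le_trans ?_ (mul_le_mul_of_nonneg_left hl2 hpos)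
      have hmw : (m : ℤ) = u + 9 := by omega
      rw [huz, hmw]
      nlinarith [mul_nonneg hu0 hu0, mul_nonneg (mul_nonneg hu0 hu0) hu0]

/-- there is no arrangement of at least twelve lines -/
theorem no_large {β : Type} (T : Finset β) (m1 m2 : β → ℕ) (n1 n2 d e : ℕ) (hw : 12 ≤ n1 + n2)
    (hd : 3 * d = n1 + 2 * n2) (he : 3 * e = 2 * n1 + n2)
    (h2 : ∀ P ∈ T, 2 ≤ m1 P + m2 P)
    (hok : ∀ P ∈ T, m1 P + m2 P + 4 ≤ n1 + n2 ∨ (m1 P + m2 P + 3 ≤ n1 + n2 ∧ ¬ 3 ∣ m1 P + 2 * m2 P))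
    (hA : ∑ P ∈ T, ((m1 P : ℤ) * (m1 P - 1)) = n1 * (n1 - 1))
    (hB : ∑ P ∈ T, ((m2 P : ℤ) * (m2 P - 1)) = n2 * (n2 - 1))
    (hAB : ∑ P ∈ T, ((m1 P : ℤ) * m2 P) = n1 * n2)
    (hx : ((d : ℤ) - 1) * (d - 2) ≤
      ∑ P ∈ T, (((m1 P + 2 * m2 P) / 3 : ℕ) : ℤ) * (((m1 P + 2 * m2 P) / 3 : ℕ) - 1))
    (hy : ((e : ℤ) - 1) * (e - 2) ≤
      ∑ P ∈ T, (((2 * m1 P + m2 P) / 3 : ℕ) : ℤ) * (((2 * m1 P + m2 P) / 3 : ℕ) - 1))
    (hH : 4 * ((n1 : ℤ) + n2) ≤ ∑ P ∈ T, hz (m1 P + m2 P)) : False := by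
  obtain ⟨w, hwd⟩ : ∃ w, w = n1 + n2 := ⟨_, rfl⟩
  rw [← hwd] at hw hok
  have hpt : ∀ P ∈ T, _ ≤ _ := fun P hP => point_ineq hw (h2 P hP) (hok P hP)
  have hs := Finset.sum_le_sum hpt
  rw [Finset.sum_add_distrib, ← Finset.mul_sum, ← Finset.mul_sum, ← Finset.mul_sum] at hs
  have h1 : ∑ P ∈ T, (((m1 P : ℤ) + m2 P) * (m1 P + m2 P - 1)) = w * (w - 1) := by
    have : ∀ P ∈ T, (((m1 P : ℤ) + m2 P) * (m1 P + m2 P - 1)) =
        (m1 P : ℤ) * (m1 P - 1) + (m2 P : ℤ) * (m2 P - 1) + 2 * ((m1 P : ℤ) * m2 P) := fun P _ => by ring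
    rw [Finset.sum_congr rfl this, Finset.sum_add_distrib, Finset.sum_add_distrib, ← Finset.mul_sum,
      hA, hB, hAB, hwd]
    push_cast
    ring
  have hL : ∑ P ∈ T, loss (m1 P) (m2 P) ≤ 22 * (w : ℤ) - 36 := by
    unfold loss
    rw [Finset.sum_sub_distrib, Finset.sum_sub_distrib, Finset.sum_add_distrib, Finset.sum_add_distrib,
      ← Finset.mul_sum, ← Finset.mul_sum, ← Finset.mul_sum, ← Finset.mul_sum, ← Finset.mul_sum, hA, hB, hAB]
    have hn1 : (n1 : ℤ) = 2 * e - d := by omega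
    have hn2 : (n2 : ℤ) = 2 * d - e := by omega
    have hw' : (w : ℤ) = d + e := by omega
    rw [hn1, hn2, hw']
    nlinarith
  rw [h1] at hs
  have hwz : (12 : ℤ) ≤ w := by exact_mod_cast hw
  obtain ⟨u, hu⟩ : ∃ u, w = u + 12 := ⟨w - 12, by omega⟩
  have huz : (w : ℤ) = u + 12 := by rw [hu]; push_cast; ring
  have hu0 : (0 : ℤ) ≤ u := Int.natCast_nonneg u
  have hpos : (0 : ℤ) ≤ (w + 2) * (w - 7) := mul_nonneg (by linarith) (by linarith)
  have hpos2 : (0 : ℤ) ≤ 2 * (w - 4) * (w - 6) := mul_nonneg (by linarith) (by linarith)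
  have h3 := mul_le_mul_of_nonneg_left hL hpos
  have h4 := mul_le_mul_of_nonneg_left hH hpos2
  have h5 : (n1 : ℤ) + n2 = w := by omega
  rw [h5] at h4
  have h6 : 4 * (5 * (w : ℤ) - 38) * (w * (w - 1)) + 2 * (w - 4) * (w - 6) * (4 * w) ≤
      (w + 2) * (w - 7) * (22 * w - 36) := by linarith
  rw [huz] at h6
  nlinarith [mul_nonneg hu0 hu0, mul_nonneg (mul_nonneg hu0 hu0) hu0]

end Pool.Agent.H875.CL
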