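import Mathlib
import Pool.Agent.H875.CL.Arr
import Pool.Agent.H875.CL.Num

/-!
# Arrangements of at most eleven lines
-/

set_option autoImplicit false

namespace Pool.Agent.H875.CL

variable {α β : Type} [DecidableEq α] [DecidableEq β] {X : Arr α β}

namespace Arr

/-- the number of the lines -/
abbrev w (X : Arr α β) : ℕ := X.A.card + X.B.card

/-- Necessary conditions for an arrangement without good pencils of lines and without two-forms. -/
structure Hyp (X : Arr α β) (d e : ℕ) : Prop where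
  hd : 3 * d = X.A.card + 2 * X.B.card
  he : 3 * e = 2 * X.A.card + X.B.card
  two : ∀ P ∈ X.T, 2 ≤ X.m1 P + X.m2 P
  ok : ∀ P, X.m1 P + X.m2 P + 4 ≤ X.w ∨ (X.m1 P + X.m2 P + 3 ≤ X.w ∧ ¬ 3 ∣ X.m1 P + 2 * X.m2 P)
  adj1 : (d - 1).choose 2 ≤ ∑ P ∈ X.T, ((X.m1 P + 2 * X.m2 P) / 3).choose 2
  adj2 : (e - 1).choose 2 ≤ ∑ P ∈ X.T, ((2 * X.m1 P + X.m2 P) / 3).choose 2
  hir : 4 * (X.w : ℤ) ≤ ∑ P ∈ X.T, hz (X.m1 P + X.m2 P)

lemma Hyp.swap {d e : ℕ} (h : Hyp X d e) : Hyp X.swap e d where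
  hd := by
    have := h.he
    simp only [swap_A, swap_B]
    omega
  he := by
    have := h.hd
    simp only [swap_A, swap_B]
    omega
  two := fun P hP => by
    have := h.two P hP
    simp only [swap_m1, swap_m2]
    omega
  ok := fun P => by
    have := h.ok P
    simp only [swap_m1, swap_m2, w, swap_A, swap_B]
    unfold w at this
    omega
  adj1 := by
    have := h.adj2
    simp only [swap_m1, swap_m2, swap_T]
    simp_rw [add_comm (X.m2 _)]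
    exact this
  adj2 := by
    have := h.adj1
    simp only [swap_m1, swap_m2, swap_T]
    simp_rw [add_comm (2 * X.m2 _)]
    exact this
  hir := by
    have := h.hir
    simp only [swap_m1, swap_m2, swap_T, w, swap_A, swap_B]
    simp_rw [add_comm (X.m2 _)]
    unfold w at this
    push_cast at this ⊢
    linarith

lemma tri (X : Arr α β) {P Q R : β} (h1 : P ≠ Q) (h2 : P ≠ R) (h3 : Q ≠ R) :
    (X.m1 P + X.m1 Q + X.m1 R ≤ X.A.card + X.a2 P Q + X.a2 P R + X.a2 Q R ∧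
      X.m2 P + X.m2 Q + X.m2 R ≤ X.B.card + X.b2 P Q + X.b2 P R + X.b2 Q R) ∧
    (X.a2 P Q + X.b2 P Q ≤ 1 ∧ X.a2 P R + X.b2 P R ≤ 1 ∧ X.a2 Q R + X.b2 Q R ≤ 1) ∧
    (X.m1 P + X.m1 Q ≤ X.A.card + X.a2 P Q ∧ X.m1 P + X.m1 R ≤ X.A.card + X.a2 P R ∧
      X.m1 Q + X.m1 R ≤ X.A.card + X.a2 Q R) ∧
    (X.m2 P + X.m2 Q ≤ X.B.card + X.b2 P Q ∧ X.m2 P + X.m2 R ≤ X.B.card + X.b2 P R ∧
      X.m2 Q + X.m2 R ≤ X.B.card + X.b2 Q R) :=
  ⟨⟨X.bonfA3 P Q R, X.bonfB3 P Q R⟩, ⟨X.ab_le h1, X.ab_le h2, X.ab_le h3⟩,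
    ⟨X.bonfA2 P Q, X.bonfA2 P R, X.bonfA2 Q R⟩, ⟨X.bonfB2 P Q, X.bonfB2 P R, X.bonfB2 Q R⟩⟩

omit [DecidableEq β] in
lemma exists_two {T : Finset β} {f : β → ℕ} (h : 1 ≤ ∑ P ∈ T, (f P).choose 2) : ∃ P ∈ T, 2 ≤ f P := by
  by_contra hcon
  push Not at hcon
  rw [Finset.sum_eq_zero] at h
  · omega
  · intro P hP
    exact Nat.choose_eq_zero_of_lt (hcon P hP)

omit [DecidableEq β] in
lemma exists_three {T : Finset β} {f : β → ℕ} (h : 3 ≤ ∑ P ∈ T, (f P).choose 2) (h2 : ∀ P ∈ T, f P ≤ 2) :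
    ∃ P Q R, P ∈ T ∧ Q ∈ T ∧ R ∈ T ∧ 2 ≤ f P ∧ 2 ≤ f Q ∧ 2 ≤ f R ∧ P ≠ Q ∧ P ≠ R ∧ Q ≠ R := by
  have h1 : ∑ P ∈ T, (f P).choose 2 ≤ (T.filter fun P => 2 ≤ f P).card := by
    rw [Finset.card_filter]
    refine Finset.sum_le_sum fun P hP => ?_
    have := h2 P hP
    have h3 : f P = 0 ∨ f P = 1 ∨ f P = 2 := by omega
    rcases h3 with h3 | h3 | h3 <;> rw [h3] <;> decide
  obtain ⟨P, hP, Q, hQ, R, hR, h4⟩ := Finset.two_lt_card.1 (lt_of_lt_of_le (by norm_num) (h.trans h1))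
  rw [Finset.mem_filter] at hP hQ hR
  exact ⟨P, Q, R, hP.1, hQ.1, hR.1, hP.2, hQ.2, hR.2, h4⟩

variable {d e : ℕ}

/-- the immediate cases -/
lemma case41 (h : Hyp X d e) (hA : X.A.card = 4) (hB : X.B.card = 1) : False := by
  have he := h.he
  have h1 : e = 3 := by omega
  have h2 := h.adj2
  rw [h1] at h2
  obtain ⟨P, _, hP⟩ := exists_two (f := fun P => (2 * X.m1 P + X.m2 P) / 3) h2
  have h3 := h.ok P
  have h4 := X.m1_le P
  have h5 := X.m2_le P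
  simp only [w] at h3
  omega

lemma case60 (h : Hyp X d e) (hA : X.A.card = 6) (hB : X.B.card = 0) : False := by
  have he := h.he
  have h1 : e = 4 := by omega
  have h2 := h.adj2
  rw [h1] at h2
  obtain ⟨P, _, hP⟩ := exists_two (f := fun P => (2 * X.m1 P + X.m2 P) / 3) (le_trans (by decide) h2)
  have h3 := h.ok P
  have h4 := X.m1_le P
  have h5 := X.m2_le P
  simp only [w] at h3
  have h6 : X.m1 P = 3 := by omega
  omega

lemma case33 (h : Hyp X d e) (hA : X.A.card = 3) (hB : X.B.card = 3) : False := by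
  have he := h.hd
  have h1 : d = 3 := by omega
  have h2 := h.adj1
  rw [h1] at h2
  obtain ⟨P, _, hP⟩ := exists_two (f := fun P => (X.m1 P + 2 * X.m2 P) / 3) (le_trans (by decide) h2)
  have h3 := h.ok P
  have h4 := X.m1_le P
  have h5 := X.m2_le P
  simp only [w] at h3
  omega

lemma case52 (h : Hyp X d e) (hA : X.A.card = 5) (hB : X.B.card = 2) : False := by
  have he := h.hd
  have h1 : d = 3 := by omega
  have h2 := h.adj1
  rw [h1] at h2
  obtain ⟨P, _, hP⟩ := exists_two (f := fun P => (X.m1 P + 2 * X.m2 P) / 3) (le_trans (by decide) h2)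
  have h3 := h.ok P
  have h4 := X.m1_le P
  have h5 := X.m2_le P
  simp only [w] at h3
  omega

lemma case71 (h : Hyp X d e) (hA : X.A.card = 7) (hB : X.B.card = 1) : False := by
  have he := h.hd
  have h1 : d = 3 := by omega
  have h2 := h.adj1
  rw [h1] at h2
  obtain ⟨P, _, hP⟩ := exists_two (f := fun P => (X.m1 P + 2 * X.m2 P) / 3) (le_trans (by decide) h2)
  have h3 := h.ok P
  have h4 := X.m1_le P
  have h5 := X.m2_le P
  simp only [w] at h3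
  omega

lemma case90 (h : Hyp X d e) (hA : X.A.card = 9) (hB : X.B.card = 0) : False := by
  have he := h.hd
  have h1 : d = 3 := by omega
  have h2 := h.adj1
  rw [h1] at h2
  obtain ⟨P, _, hP⟩ := exists_two (f := fun P => (X.m1 P + 2 * X.m2 P) / 3) (le_trans (by decide) h2)
  have h3 := h.ok P
  have h4 := X.m1_le P
  have h5 := X.m2_le P
  simp only [w] at h3
  omega

/-- four lines of each colour -/
lemma half44 (h : Hyp X d e) (hA : X.A.card = 4) (hB : X.B.card = 4) :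
    ∃ P Q, P ≠ Q ∧ 2 ≤ X.m1 P ∧ 2 ≤ X.m2 P ∧ 2 ≤ X.m1 Q ∧ 2 ≤ X.m2 Q ∧ X.b2 P Q = 1 := by
  have he := h.hd
  have h1 : d = 4 := by omega
  have h2 := h.adj1
  rw [h1] at h2
  have hok : ∀ P, X.m1 P + X.m2 P + 4 ≤ 8 ∨ (X.m1 P + X.m2 P + 3 ≤ 8 ∧ ¬ 3 ∣ X.m1 P + 2 * X.m2 P) := by
    intro P
    have := h.ok P
    simp only [w, hA, hB] at this
    exact this
  have hP1 : ∀ P, X.m1 P ≤ 4 := fun P => by rw [← hA]; exact X.m1_le P
  have hP2 : ∀ P, X.m2 P ≤ 4 := fun P => by rw [← hB]; exact X.m2_le P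
  obtain ⟨P, Q, R, _, _, _, hP, hQ, hR, h3, h4, h5⟩ :=
    exists_three (f := fun P => (X.m1 P + 2 * X.m2 P) / 3) (le_trans (by decide) h2) (fun P _ => by
      have := hok P; have := hP1 P; have := hP2 P; omega)
  have hp1 := hok P
  have hp2 := hok Q
  have hp3 := hok R
  have hq1 := hP1 P
  have hq2 := hP1 Q
  have hq3 := hP1 R
  have hr1 := hP2 P
  have hr2 := hP2 Q
  have hr3 := hP2 R
  obtain ⟨⟨t1, t2⟩, ⟨t3, t4, t5⟩, ⟨t6, t7, t8⟩, ⟨t9, t10, t11⟩⟩ := X.tri h3 h4 h5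
  rw [hA] at t1 t6 t7 t8
  rw [hB] at t2 t9 t10 t11
  by_cases c1 : 3 ≤ X.m2 P
  · exact ⟨Q, R, h5, by omega, by omega, by omega, by omega, by omega⟩
  · by_cases c2 : 3 ≤ X.m2 Q
    · exact ⟨P, R, h4, by omega, by omega, by omega, by omega, by omega⟩
    · exact ⟨P, Q, h3, by omega, by omega, by omega, by omega, by omega⟩

lemma case44 (h : Hyp X d e) (hA : X.A.card = 4) (hB : X.B.card = 4) : False := by
  obtain ⟨P, Q, hPQ, p1, p2, q1, q2, hb⟩ := half44 h hA hB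
  obtain ⟨P', Q', hPQ', p1', p2', q1', q2', ha⟩ := half44 h.swap hB hA
  simp only [swap_m1, swap_m2, swap_b2] at p1' p2' q1' q2' ha
  have key : ∀ R, 2 ≤ X.m1 R → 2 ≤ X.m2 R → R = P ∨ R = Q := by
    intro R h1 h2
    by_contra hcon
    push Not at hcon
    obtain ⟨⟨t1, t2⟩, ⟨t3, t4, t5⟩, _⟩ := X.tri hPQ hcon.1.symm hcon.2.symm
    rw [hA] at t1
    rw [hB] at t2
    omega
  have h1 := X.ab_le hPQ
  rcases key P' p2' p1' with rfl | rfl
  · rcases key Q' q2' q1' with rfl | rfl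
    · exact hPQ' rfl
    · omega
  · rcases key Q' q2' q1' with rfl | rfl
    · rw [X.a2_comm] at ha
      omega
    · exact hPQ' rfl

lemma case82 (h : Hyp X d e) (hA : X.A.card = 8) (hB : X.B.card = 2) : False := by
  have he := h.hd
  have h1 : d = 4 := by omega
  have h2 := h.adj1
  rw [h1] at h2
  have hok : ∀ P, X.m1 P + X.m2 P + 4 ≤ 10 ∨ (X.m1 P + X.m2 P + 3 ≤ 10 ∧ ¬ 3 ∣ X.m1 P + 2 * X.m2 P) := by
    intro P
    have := h.ok P
    simp only [w, hA, hB] at this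
    exact this
  have hP1 : ∀ P, X.m1 P ≤ 8 := fun P => by rw [← hA]; exact X.m1_le P
  have hP2 : ∀ P, X.m2 P ≤ 2 := fun P => by rw [← hB]; exact X.m2_le P
  obtain ⟨P, Q, R, _, _, _, hP, hQ, hR, h3, h4, h5⟩ :=
    exists_three (f := fun P => (X.m1 P + 2 * X.m2 P) / 3) (le_trans (by decide) h2) (fun P _ => by
      have := hok P; have := hP1 P; have := hP2 P; omega)
  have hp1 := hok P
  have hp2 := hok Q
  have hp3 := hok R
  have hq1 := hP1 P
  have hq2 := hP1 Q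
  have hq3 := hP1 R
  have hr1 := hP2 P
  have hr2 := hP2 Q
  have hr3 := hP2 R
  obtain ⟨⟨t1, t2⟩, ⟨t3, t4, t5⟩, ⟨t6, t7, t8⟩, ⟨t9, t10, t11⟩⟩ := X.tri h3 h4 h5
  rw [hA] at t1 t6 t7 t8
  rw [hB] at t2 t9 t10 t11
  omega

end Arr

end Pool.Agent.H875.CL
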