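import Mathlib
import Pool.Agent.H875.CL.Small

/-!
# The arrangements with `(10, 1)` and `(7, 4)` lines of the two colours
-/

set_option autoImplicit false

namespace Pool.Agent.H875.CL

variable {α β : Type} [DecidableEq α] [DecidableEq β] {X : Arr α β}

namespace Arr

variable {d e : ℕ}

lemma sumAz (X : Arr α β) : ∑ P ∈ X.T, ((X.m1 P : ℤ) * (X.m1 P - 1)) = X.A.card * (X.A.card - 1) := by
  have h2 : ∀ n : ℕ, ((n * n - n : ℕ) : ℤ) = n * (n - 1) := by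
    intro n
    rw [Nat.cast_sub (Nat.le_mul_self n)]
    push_cast
    ring
  have h3 := congrArg (Nat.cast : ℕ → ℤ) X.sumA
  rw [Nat.cast_sum, h2] at h3
  simp_rw [h2] at h3
  exact h3

lemma sumBz (X : Arr α β) : ∑ P ∈ X.T, ((X.m2 P : ℤ) * (X.m2 P - 1)) = X.B.card * (X.B.card - 1) :=
  X.swap.sumAz

lemma sumABz (X : Arr α β) : ∑ P ∈ X.T, ((X.m1 P : ℤ) * X.m2 P) = X.A.card * X.B.card := by
  exact_mod_cast X.sumAB

lemma two_choose (n : ℕ) : (2 * (n.choose 2 : ℕ) : ℤ) = n * (n - 1) := by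
  induction n with
  | zero => simp
  | succ n ih =>
    rw [Nat.choose_succ_succ' n 1, Nat.choose_one_right]
    push_cast
    linarith

lemma adj1z (h : Hyp X d e) (hd : 1 ≤ d) : ((d : ℤ) - 1) * (d - 2) ≤
    ∑ P ∈ X.T, (((X.m1 P + 2 * X.m2 P) / 3 : ℕ) : ℤ) * (((X.m1 P + 2 * X.m2 P) / 3 : ℕ) - 1) := by
  simp_rw [← two_choose]
  rw [← Finset.mul_sum]
  have h1 := h.adj1
  have h2 := two_choose (d - 1)
  have h3 : ((d - 1 : ℕ) : ℤ) = d - 1 := by omega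
  rw [h3] at h2
  have h4 : ((d : ℤ) - 1) * (d - 2) = 2 * ((d - 1).choose 2 : ℕ) := by rw [h2]; ring
  rw [h4]
  have h5 : (((d - 1).choose 2 : ℕ) : ℤ) ≤ ∑ P ∈ X.T, ((((X.m1 P + 2 * X.m2 P) / 3).choose 2 : ℕ) : ℤ) := by
    exact_mod_cast h1
  linarith

lemma adj2z (h : Hyp X d e) (he : 1 ≤ e) : ((e : ℤ) - 1) * (e - 2) ≤
    ∑ P ∈ X.T, (((2 * X.m1 P + X.m2 P) / 3 : ℕ) : ℤ) * (((2 * X.m1 P + X.m2 P) / 3 : ℕ) - 1) := by
  simp_rw [← two_choose]
  rw [← Finset.mul_sum]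
  have h1 := h.adj2
  have h2 := two_choose (e - 1)
  have h3 : ((e - 1 : ℕ) : ℤ) = e - 1 := by omega
  rw [h3] at h2
  have h4 : ((e : ℤ) - 1) * (e - 2) = 2 * ((e - 1).choose 2 : ℕ) := by rw [h2]; ring
  rw [h4]
  have h5 : (((e - 1).choose 2 : ℕ) : ℤ) ≤ ∑ P ∈ X.T, ((((2 * X.m1 P + X.m2 P) / 3).choose 2 : ℕ) : ℤ) := by
    exact_mod_cast h1
  linarith

lemma case_large (h : Hyp X d e) (hw : 12 ≤ X.w) : False :=
  no_large X.T X.m1 X.m2 X.A.card X.B.card d e hw h.hd h.he h.two (fun P _ => h.ok P) X.sumAz X.sumBz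
    X.sumABz (adj1z h (by have := h.hd; unfold w at hw; omega)) (adj2z h (by have := h.he; unfold w at hw; omega))
    (by have := h.hir; unfold w at this; push_cast at this; exact this)

lemma point101 : ∀ a < 11, ∀ b < 2, 2 ≤ a + b →
    (a + b + 4 ≤ 11 ∨ (a + b + 3 ≤ 11 ∧ ¬ 3 ∣ a + 2 * b)) →
    (17 * ((((a + 2 * b) / 3 : ℕ) : ℤ) * (((a + 2 * b) / 3 : ℕ) - 1)) +
      9 * ((((2 * a + b) / 3 : ℕ) : ℤ) * (((2 * a + b) / 3 : ℕ) - 1)) + 2 * hz (a + b)) -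
      (4 * ((a : ℤ) * (a - 1)) + 8 * ((a : ℤ) * b)) ≤ 0 := by
  unfold hz
  decide

lemma case101 (h : Hyp X d e) (hA : X.A.card = 10) (hB : X.B.card = 1) : False := by
  have hd := h.hd
  have he := h.he
  have h1 : d = 4 := by omega
  have h2 : e = 7 := by omega
  have hok : ∀ P, X.m1 P + X.m2 P + 4 ≤ 11 ∨ (X.m1 P + X.m2 P + 3 ≤ 11 ∧ ¬ 3 ∣ X.m1 P + 2 * X.m2 P) := by
    intro P
    have := h.ok P
    simp only [w, hA, hB] at this
    exact this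
  have hP1 : ∀ P, X.m1 P < 11 := fun P => by have := X.m1_le P; omega
  have hP2 : ∀ P, X.m2 P < 2 := fun P => by have := X.m2_le P; omega
  have hs := Finset.sum_le_sum fun P (hP : P ∈ X.T) =>
    point101 (X.m1 P) (hP1 P) (X.m2 P) (hP2 P) (h.two P hP) (hok P)
  rw [Finset.sum_sub_distrib, Finset.sum_add_distrib, Finset.sum_add_distrib, Finset.sum_add_distrib,
    ← Finset.mul_sum, ← Finset.mul_sum, ← Finset.mul_sum, ← Finset.mul_sum, ← Finset.mul_sum,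
    X.sumAz, X.sumABz, Finset.sum_const_zero, hA, hB] at hs
  have h3 := adj1z h (by omega)
  have h4 := adj2z h (by omega)
  have h5 := h.hir
  simp only [w, hA, hB] at h5
  rw [h1] at h3
  rw [h2] at h4
  push_cast at h3 h4 h5 hs
  linarith

lemma point74 : ∀ a < 8, ∀ b < 5, 2 ≤ a + b →
    (a + b + 4 ≤ 11 ∨ (a + b + 3 ≤ 11 ∧ ¬ 3 ∣ a + 2 * b)) →
    (163 * ((((a + 2 * b) / 3 : ℕ) : ℤ) * (((a + 2 * b) / 3 : ℕ) - 1)) +
      81 * ((((2 * a + b) / 3 : ℕ) : ℤ) * (((2 * a + b) / 3 : ℕ) - 1)) + 18 * hz (a + b)) -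
      (36 * ((a : ℤ) * (a - 1)) + 65 * ((b : ℤ) * (b - 1)) + 72 * ((a : ℤ) * b) +
        20 * (if 4 ≤ a then 1 else 0)) ≤ 0 := by
  unfold hz
  decide

lemma case74 (h : Hyp X d e) (hA : X.A.card = 7) (hB : X.B.card = 4) : False := by
  have hd := h.hd
  have he := h.he
  have h1 : d = 5 := by omega
  have h2 : e = 6 := by omega
  have hok : ∀ P, X.m1 P + X.m2 P + 4 ≤ 11 ∨ (X.m1 P + X.m2 P + 3 ≤ 11 ∧ ¬ 3 ∣ X.m1 P + 2 * X.m2 P) := by
    intro P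
    have := h.ok P
    simp only [w, hA, hB] at this
    exact this
  have hP1 : ∀ P, X.m1 P < 8 := fun P => by have := X.m1_le P; omega
  have hP2 : ∀ P, X.m2 P < 5 := fun P => by have := X.m2_le P; omega
  have hs := Finset.sum_le_sum fun P (hP : P ∈ X.T) =>
    point74 (X.m1 P) (hP1 P) (X.m2 P) (hP2 P) (h.two P hP) (hok P)
  have hN : (X.T.filter fun P => 4 ≤ X.m1 P).card ≤ 2 := by
    by_contra hcon
    obtain ⟨P, hP, Q, hQ, R, hR, h6, h7, h8⟩ := Finset.two_lt_card.1 (lt_of_not_ge hcon)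
    rw [Finset.mem_filter] at hP hQ hR
    obtain ⟨⟨t1, t2⟩, ⟨t3, t4, t5⟩, _⟩ := X.tri h6 h7 h8
    omega
  have hN' : ∑ P ∈ X.T, (if 4 ≤ X.m1 P then 1 else 0 : ℤ) ≤ 2 := by
    rw [Finset.sum_ite, Finset.sum_const_zero, Finset.sum_const, nsmul_eq_mul, mul_one, add_zero]
    exact_mod_cast hN
  rw [Finset.sum_sub_distrib, Finset.sum_add_distrib, Finset.sum_add_distrib, Finset.sum_add_distrib,
    Finset.sum_add_distrib, Finset.sum_add_distrib,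
    ← Finset.mul_sum, ← Finset.mul_sum, ← Finset.mul_sum, ← Finset.mul_sum, ← Finset.mul_sum,
    ← Finset.mul_sum, ← Finset.mul_sum, X.sumAz, X.sumABz, X.sumBz, Finset.sum_const_zero, hA, hB] at hs
  have h3 := adj1z h (by omega)
  have h4 := adj2z h (by omega)
  have h5 := h.hir
  simp only [w, hA, hB] at h5
  rw [h1] at h3
  rw [h2] at h4
  push_cast at h3 h4 h5 hs
  linarith

end Arr

end Pool.Agent.H875.CL
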