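import Mathlib
import Pool.Agent.H875.CL.Small

/-!
# The arrangements with `(5, 5)` lines of the two colours
-/

set_option autoImplicit false

namespace Pool.Agent.H875.CL

variable {α β : Type} [DecidableEq α] [DecidableEq β] {X : Arr α β}

namespace Arr

variable {d e : ℕ}

lemma point55 : ∀ a < 6, ∀ b < 6, (a + b + 4 ≤ 10 ∨ (a + b + 3 ≤ 10 ∧ ¬ 3 ∣ a + 2 * b)) →
    ((a + 2 * b) / 3).choose 2 + ((2 * a + b) / 3).choose 2 ≤
      2 * (if 2 ≤ a ∧ 2 ≤ b then 1 else 0) + (if 3 ≤ a ∧ b ≤ 1 then 1 else 0) +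
      (if 3 ≤ b ∧ a ≤ 1 then 1 else 0) + 3 * (if 4 ≤ a ∧ b ≤ 2 then 1 else 0) +
      3 * (if 4 ≤ b ∧ a ≤ 2 then 1 else 0) + 4 * (if 3 ≤ a ∧ 3 ≤ b then 1 else 0) := by
  decide

/-- convexity for sets with a given number of points -/
lemma conv6 (hA : X.A.card = 5) (hB : X.B.card = 5) (S : Finset β) (hS : S.card = 6) (s t : ℕ)
    (h1 : s ≤ ∑ P ∈ S, X.m1 P) (h2 : t ≤ ∑ P ∈ S, X.m2 P) :
    (4 * s + 4 * t ≤ 90) ∧ (4 * s + 2 * t ≤ 70) := by
  have h1z : (s : ℤ) ≤ ∑ P ∈ S, (X.m1 P : ℤ) := by exact_mod_cast h1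
  have h2z : (t : ℤ) ≤ ∑ P ∈ S, (X.m2 P : ℤ) := by exact_mod_cast h2
  have h3 := X.conv S 2 2
  have h4 := X.conv S 2 1
  rw [hA, hB, hS] at h3 h4
  push_cast at h3 h4
  constructor <;> omega

omit [DecidableEq β] in
lemma sum_ge (S : Finset β) (f : β → ℕ) (c : ℕ) (h : ∀ P ∈ S, c ≤ f P) : S.card * c ≤ ∑ P ∈ S, f P := by
  have := Finset.card_nsmul_le_sum S f c h
  rwa [smul_eq_mul] at this

lemma case55 (h : Hyp X d e) (hA : X.A.card = 5) (hB : X.B.card = 5) : False := by
  classical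
  have hd := h.hd
  have he := h.he
  have h1 : d = 5 := by omega
  have h1' : e = 5 := by omega
  have h2 := h.adj1
  have h2' := h.adj2
  rw [h1] at h2
  rw [h1'] at h2'
  have hok : ∀ P, X.m1 P + X.m2 P + 4 ≤ 10 ∨ (X.m1 P + X.m2 P + 3 ≤ 10 ∧ ¬ 3 ∣ X.m1 P + 2 * X.m2 P) := by
    intro P
    have := h.ok P
    simp only [w, hA, hB] at this
    exact this
  have hP1 : ∀ P, X.m1 P < 6 := fun P => by have := X.m1_le P; omega
  have hP2 : ∀ P, X.m2 P < 6 := fun P => by have := X.m2_le P; omega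
  have hs := Finset.sum_le_sum fun P (hP : P ∈ X.T) => point55 (X.m1 P) (hP1 P) (X.m2 P) (hP2 P) (hok P)
  simp only [Finset.sum_add_distrib, ← Finset.mul_sum, ← Finset.card_filter] at hs
  set Z := X.T.filter fun P => 2 ≤ X.m1 P ∧ 2 ≤ X.m2 P with hZ
  set NA := X.T.filter fun P => 3 ≤ X.m1 P ∧ X.m2 P ≤ 1 with hNA
  set NB := X.T.filter fun P => 3 ≤ X.m2 P ∧ X.m1 P ≤ 1 with hNB
  set FA := X.T.filter fun P => 4 ≤ X.m1 P ∧ X.m2 P ≤ 2 with hFA
  set FB := X.T.filter fun P => 4 ≤ X.m2 P ∧ X.m1 P ≤ 2 with hFB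
  set O := X.T.filter fun P => 3 ≤ X.m1 P ∧ 3 ≤ X.m2 P with hO
  have h12 : 12 ≤ 2 * Z.card + NA.card + NB.card + 3 * FA.card + 3 * FB.card + 4 * O.card := by
    have h3 : (5 - 1).choose 2 = 6 := by decide
    omega
  have zZ : ∀ P ∈ Z, 2 ≤ X.m1 P ∧ 2 ≤ X.m2 P := fun P hP => (Finset.mem_filter.1 hP).2
  have zNA : ∀ P ∈ NA, 3 ≤ X.m1 P ∧ X.m2 P ≤ 1 := fun P hP => (Finset.mem_filter.1 hP).2
  have zNB : ∀ P ∈ NB, 3 ≤ X.m2 P ∧ X.m1 P ≤ 1 := fun P hP => (Finset.mem_filter.1 hP).2
  have zFA : ∀ P ∈ FA, 4 ≤ X.m1 P ∧ X.m2 P ≤ 2 := fun P hP => (Finset.mem_filter.1 hP).2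
  have zFB : ∀ P ∈ FB, 4 ≤ X.m2 P ∧ X.m1 P ≤ 2 := fun P hP => (Finset.mem_filter.1 hP).2
  have zO : ∀ P ∈ O, 3 ≤ X.m1 P ∧ 3 ≤ X.m2 P := fun P hP => (Finset.mem_filter.1 hP).2
  -- two points
  have two : ∀ {P Q : β}, P ≠ Q → X.m1 P + X.m1 Q ≤ 6 ∧ X.m2 P + X.m2 Q ≤ 6 ∧
      X.m1 P + X.m1 Q + X.m2 P + X.m2 Q ≤ 11 := by
    intro P Q hPQ
    have h3 := X.bonfA2 P Q
    have h4 := X.bonfB2 P Q
    have h5 := X.ab_le hPQ
    omega
  have thr : ∀ {P Q R : β}, P ≠ Q → P ≠ R → Q ≠ R → X.m1 P + X.m1 Q + X.m1 R ≤ 8 ∧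
      X.m2 P + X.m2 Q + X.m2 R ≤ 8 ∧
      X.m1 P + X.m1 Q + X.m1 R + (X.m2 P + X.m2 Q + X.m2 R) ≤ 13 := by
    intro P Q R h3 h4 h5
    obtain ⟨⟨t1, t2⟩, ⟨t3, t4, t5⟩, _⟩ := X.tri h3 h4 h5
    omega
  have cNA : NA.card ≤ 2 := by
    by_contra hcon
    obtain ⟨P, hP, Q, hQ, R, hR, h6, h7, h8⟩ := Finset.two_lt_card.1 (lt_of_not_ge hcon)
    have := thr h6 h7 h8
    have := zNA P hP
    have := zNA Q hQ
    have := zNA R hR
    omega
  have cNB : NB.card ≤ 2 := by
    by_contra hcon
    obtain ⟨P, hP, Q, hQ, R, hR, h6, h7, h8⟩ := Finset.two_lt_card.1 (lt_of_not_ge hcon)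
    have := thr h6 h7 h8
    have := zNB P hP
    have := zNB Q hQ
    have := zNB R hR
    omega
  have cFA : FA.card ≤ 1 := by
    by_contra hcon
    obtain ⟨P, hP, Q, hQ, h6⟩ := Finset.one_lt_card.1 (lt_of_not_ge hcon)
    have := two h6
    have := zFA P hP
    have := zFA Q hQ
    omega
  have cFB : FB.card ≤ 1 := by
    by_contra hcon
    obtain ⟨P, hP, Q, hQ, h6⟩ := Finset.one_lt_card.1 (lt_of_not_ge hcon)
    have := two h6
    have := zFB P hP
    have := zFB Q hQ
    omega
  have cO : O.card ≤ 1 := by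
    by_contra hcon
    obtain ⟨P, hP, Q, hQ, h6⟩ := Finset.one_lt_card.1 (lt_of_not_ge hcon)
    have := two h6
    have := zO P hP
    have := zO Q hQ
    omega
  -- a point with at least three lines of each colour
  rcases O.eq_empty_or_nonempty with hOe | ⟨o, ho⟩
  swap
  · have ho' := zO o ho
    have d1 : (Z.erase o).card ≤ 1 := by
      by_contra hcon
      obtain ⟨P, hP, Q, hQ, h6⟩ := Finset.one_lt_card.1 (lt_of_not_ge hcon)
      rw [Finset.mem_erase] at hP hQ
      have := thr hP.1 h6 hQ.1.symm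
      have := zZ P hP.2
      have := zZ Q hQ.2
      omega
    have d2 := Finset.pred_card_le_card_erase (s := Z) (a := o)
    have d3 : NA.card ≤ 1 := by
      by_contra hcon
      obtain ⟨P, hP, Q, hQ, h6⟩ := Finset.one_lt_card.1 (lt_of_not_ge hcon)
      have e1 := zNA P hP
      have e2 := zNA Q hQ
      have e3 : P ≠ o := by rintro rfl; omega
      have e4 : Q ≠ o := by rintro rfl; omega
      have := thr e3 h6 e4.symm
      omega
    have d4 : NB.card ≤ 1 := by
      by_contra hcon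
      obtain ⟨P, hP, Q, hQ, h6⟩ := Finset.one_lt_card.1 (lt_of_not_ge hcon)
      have e1 := zNB P hP
      have e2 := zNB Q hQ
      have e3 : P ≠ o := by rintro rfl; omega
      have e4 : Q ≠ o := by rintro rfl; omega
      have := thr e3 h6 e4.symm
      omega
    have d5 : FA.card = 0 := by
      rw [Finset.card_eq_zero, Finset.eq_empty_iff_forall_notMem]
      intro P hP
      have e1 := zFA P hP
      have e3 : P ≠ o := by rintro rfl; omega
      have := two e3
      omega
    have d6 : FB.card = 0 := by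
      rw [Finset.card_eq_zero, Finset.eq_empty_iff_forall_notMem]
      intro P hP
      have e1 := zFB P hP
      have e3 : P ≠ o := by rintro rfl; omega
      have := two e3
      omega
    omega
  rw [hOe, Finset.card_empty] at h12
  -- consequences of a point with four lines of one colour
  have bP : ∀ R, 4 ≤ X.m2 R → ∀ P Q, P ≠ Q → P ≠ R → Q ≠ R → 2 ≤ X.m2 P → 2 ≤ X.m2 Q →
      X.b2 P Q = 1 ∧ X.a2 P Q = 0 := by
    intro R hR P Q h3 h4 h5 h6 h7
    obtain ⟨⟨t1, t2⟩, ⟨t3, t4, t5⟩, _⟩ := X.tri h3 h4 h5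
    omega
  have aP : ∀ R, 4 ≤ X.m1 R → ∀ P Q, P ≠ Q → P ≠ R → Q ≠ R → 2 ≤ X.m1 P → 2 ≤ X.m1 Q →
      X.a2 P Q = 1 ∧ X.b2 P Q = 0 := by
    intro R hR P Q h3 h4 h5 h6 h7
    obtain ⟨⟨t1, t2⟩, ⟨t3, t4, t5⟩, _⟩ := X.tri h3 h4 h5
    omega
  have zB : ∀ R, 4 ≤ X.m2 R → Z.card ≤ 2 := by
    intro R hR
    by_contra hcon
    obtain ⟨P, hP, Q, hQ, S, hS, h6, h7, h8⟩ := Finset.two_lt_card.1 (lt_of_not_ge hcon)
    have e1 := zZ P hP
    have e2 := zZ Q hQ
    have e3 := zZ S hS
    obtain ⟨⟨t1, t2⟩, ⟨t3, t4, t5⟩, _⟩ := X.tri h6 h7 h8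
    by_cases c1 : P = R
    · subst c1; omega
    by_cases c2 : Q = R
    · subst c2; omega
    by_cases c3 : S = R
    · subst c3; omega
    have f1 := bP R hR P Q h6 c1 c2 e1.2 e2.2
    have f2 := bP R hR P S h7 c1 c3 e1.2 e3.2
    have f3 := bP R hR Q S h8 c2 c3 e2.2 e3.2
    omega
  have zA : ∀ R, 4 ≤ X.m1 R → Z.card ≤ 2 := by
    intro R hR
    by_contra hcon
    obtain ⟨P, hP, Q, hQ, S, hS, h6, h7, h8⟩ := Finset.two_lt_card.1 (lt_of_not_ge hcon)
    have e1 := zZ P hP
    have e2 := zZ Q hQ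
    have e3 := zZ S hS
    obtain ⟨⟨t1, t2⟩, ⟨t3, t4, t5⟩, _⟩ := X.tri h6 h7 h8
    by_cases c1 : P = R
    · subst c1; omega
    by_cases c2 : Q = R
    · subst c2; omega
    by_cases c3 : S = R
    · subst c3; omega
    have f1 := aP R hR P Q h6 c1 c2 e1.1 e2.1
    have f2 := aP R hR P S h7 c1 c3 e1.1 e3.1
    have f3 := aP R hR Q S h8 c2 c3 e2.1 e3.1
    omega
  have nB : ∀ R, 4 ≤ X.m2 R → NB.card ≤ 1 := by
    intro R hR
    by_contra hcon
    obtain ⟨P, hP, Q, hQ, h6⟩ := Finset.one_lt_card.1 (lt_of_not_ge hcon)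
    have e1 := zNB P hP
    have e2 := zNB Q hQ
    by_cases c1 : P = R
    · subst c1
      have := two h6
      omega
    · have := two c1
      omega
  have nA : ∀ R, 4 ≤ X.m1 R → NA.card ≤ 1 := by
    intro R hR
    by_contra hcon
    obtain ⟨P, hP, Q, hQ, h6⟩ := Finset.one_lt_card.1 (lt_of_not_ge hcon)
    have e1 := zNA P hP
    have e2 := zNA Q hQ
    by_cases c1 : P = R
    · subst c1
      have := two h6
      omega
    · have := two c1
      omega
  rcases FA.eq_empty_or_nonempty with hFAe | ⟨R', hR'⟩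
  · rcases FB.eq_empty_or_nonempty with hFBe | ⟨R, hR⟩
    · -- at most three lines of each colour through a point
      rw [hFAe, hFBe, Finset.card_empty] at h12
      have g1 : Z.card ≤ 5 := by
        by_contra hcon
        obtain ⟨S, hS, hSc⟩ := Finset.exists_subset_card_eq (show 6 ≤ Z.card by omega)
        have k1 := sum_ge S X.m1 2 fun P hP => (zZ P (hS hP)).1
        have k2 := sum_ge S X.m2 2 fun P hP => (zZ P (hS hP)).2
        rw [hSc] at k1 k2
        have := conv6 hA hB S hSc 12 12 (by omega) (by omega)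
        omega
      have g2 : 5 ≤ Z.card → NA.card = 0 := by
        intro h5
        rw [Finset.card_eq_zero, Finset.eq_empty_iff_forall_notMem]
        intro P hP
        have e1 := zNA P hP
        obtain ⟨S, hS, hSc⟩ := Finset.exists_subset_card_eq h5
        have hPS : P ∉ S := fun hPS => by have := zZ P (hS hPS); omega
        have k1 := sum_ge S X.m1 2 fun P hP => (zZ P (hS hP)).1
        have k2 := sum_ge S X.m2 2 fun P hP => (zZ P (hS hP)).2
        rw [hSc] at k1 k2
        have := conv6 hA hB (insert P S) (by rw [Finset.card_insert_of_notMem hPS, hSc]) 13 10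
          (by rw [Finset.sum_insert hPS]; omega) (by rw [Finset.sum_insert hPS]; omega)
        omega
      have g2' : 5 ≤ Z.card → NB.card = 0 := by
        intro h5
        rw [Finset.card_eq_zero, Finset.eq_empty_iff_forall_notMem]
        intro P hP
        have e1 := zNB P hP
        obtain ⟨S, hS, hSc⟩ := Finset.exists_subset_card_eq h5
        have hPS : P ∉ S := fun hPS => by have := zZ P (hS hPS); omega
        have k1 := sum_ge S X.m1 2 fun P hP => (zZ P (hS hP)).1
        have k2 := sum_ge S X.m2 2 fun P hP => (zZ P (hS hP)).2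
        rw [hSc] at k1 k2
        have := conv6 hA hB (insert P S) (by rw [Finset.card_insert_of_notMem hPS, hSc]) 10 13
          (by rw [Finset.sum_insert hPS]; omega) (by rw [Finset.sum_insert hPS]; omega)
        omega
      have g3 : 4 ≤ Z.card → NA.card ≤ 1 := by
        intro h5
        by_contra hcon
        obtain ⟨P, hP, Q, hQ, h6⟩ := Finset.one_lt_card.1 (lt_of_not_ge hcon)
        have e1 := zNA P hP
        have e2 := zNA Q hQ
        obtain ⟨S, hS, hSc⟩ := Finset.exists_subset_card_eq h5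
        have hPS : P ∉ S := fun hPS => by have := zZ P (hS hPS); omega
        have hQS : Q ∉ S := fun hPS => by have := zZ Q (hS hPS); omega
        have hPS' : P ∉ insert Q S := by
          rw [Finset.mem_insert, not_or]
          exact ⟨h6, hPS⟩
        have k1 := sum_ge S X.m1 2 fun P hP => (zZ P (hS hP)).1
        have k2 := sum_ge S X.m2 2 fun P hP => (zZ P (hS hP)).2
        rw [hSc] at k1 k2
        have := conv6 hA hB (insert P (insert Q S))
          (by rw [Finset.card_insert_of_notMem hPS', Finset.card_insert_of_notMem hQS, hSc]) 14 8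
          (by rw [Finset.sum_insert hPS', Finset.sum_insert hQS]; omega)
          (by rw [Finset.sum_insert hPS', Finset.sum_insert hQS]; omega)
        omega
      have g3' : 4 ≤ Z.card → NB.card ≤ 1 := by
        intro h5
        by_contra hcon
        obtain ⟨P, hP, Q, hQ, h6⟩ := Finset.one_lt_card.1 (lt_of_not_ge hcon)
        have e1 := zNB P hP
        have e2 := zNB Q hQ
        obtain ⟨S, hS, hSc⟩ := Finset.exists_subset_card_eq h5
        have hPS : P ∉ S := fun hPS => by have := zZ P (hS hPS); omega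
        have hQS : Q ∉ S := fun hPS => by have := zZ Q (hS hPS); omega
        have hPS' : P ∉ insert Q S := by
          rw [Finset.mem_insert, not_or]
          exact ⟨h6, hPS⟩
        have k1 := sum_ge S X.m1 2 fun P hP => (zZ P (hS hP)).1
        have k2 := sum_ge S X.m2 2 fun P hP => (zZ P (hS hP)).2
        rw [hSc] at k1 k2
        have := conv6 (X := X.swap) hB hA (insert P (insert Q S))
          (by rw [Finset.card_insert_of_notMem hPS', Finset.card_insert_of_notMem hQS, hSc]) 14 8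
          (by
            simp only [swap_m1]
            rw [Finset.sum_insert hPS', Finset.sum_insert hQS]; omega)
          (by
            simp only [swap_m2]
            rw [Finset.sum_insert hPS', Finset.sum_insert hQS]; omega)
        omega
      omega
    · rw [hFAe, Finset.card_empty] at h12
      have := zB R (zFB R hR).1
      have := nB R (zFB R hR).1
      omega
  · rcases FB.eq_empty_or_nonempty with hFBe | ⟨R, hR⟩
    · rw [hFBe, Finset.card_empty] at h12
      have := zA R' (zFA R' hR').1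
      have := nA R' (zFA R' hR').1
      omega
    · have u1 := zB R (zFB R hR).1
      have u2 := nB R (zFB R hR).1
      have u3 := nA R' (zFA R' hR').1
      rcases NA.eq_empty_or_nonempty with hNAe | ⟨P, hP⟩
      · rw [hNAe, Finset.card_empty] at h12
        omega
      rcases NB.eq_empty_or_nonempty with hNBe | ⟨Q, hQ⟩
      · rw [hNBe, Finset.card_empty] at h12
        omega
      have hPR : P = R' := by
        by_contra hne
        have := two hne
        have := zNA P hP
        have := zFA R' hR'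
        omega
      have hQR : Q = R := by
        by_contra hne
        have := two hne
        have := zNB Q hQ
        have := zFB R hR
        omega
      have u4 : Z.card ≤ 1 := by
        by_contra hcon
        obtain ⟨U, hU, V, hV, h6⟩ := Finset.one_lt_card.1 (lt_of_not_ge hcon)
        have e1 := zZ U hU
        have e2 := zZ V hV
        have e3 := zNA P hP
        have e4 := zNB Q hQ
        have n1 : U ≠ R := by rintro rfl; rw [hQR] at e4; omega
        have n2 : V ≠ R := by rintro rfl; rw [hQR] at e4; omega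
        have n3 : U ≠ R' := by rintro rfl; rw [hPR] at e3; omega
        have n4 : V ≠ R' := by rintro rfl; rw [hPR] at e3; omega
        have f1 := bP R (zFB R hR).1 U V h6 n1 n2 e1.2 e2.2
        have f2 := aP R' (zFA R' hR').1 U V h6 n3 n4 e1.1 e2.1
        omega
      omega

end Arr

end Pool.Agent.H875.CL
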