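import Mathlib
import Pool.Agent.H875.CL.Small

/-!
# The arrangements with `(6, 3)` lines of the two colours
-/

set_option autoImplicit false

namespace Pool.Agent.H875.CL

variable {α β : Type} [DecidableEq α] [DecidableEq β] {X : Arr α β}

namespace Arr

variable {d e : ℕ}

/-- Four points `V1`, `V2`, `V3`, `P` in general position (the lines `c1`, `c2`, `c3` join the first three) such that the
triple plane restricted to the conics through the four points has at most three branch points. -/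
def Quad (X : Arr α β) : Prop :=
  ∃ V1 V2 V3 P : β, ∃ c1 c2 c3 : α,
    (c1 ∈ X.A ∪ X.B ∧ c2 ∈ X.A ∪ X.B ∧ c3 ∈ X.A ∪ X.B) ∧
    (c3 ∈ X.L V1 ∧ c3 ∈ X.L V2 ∧ c3 ∉ X.L V3 ∧ c3 ∉ X.L P) ∧
    (c2 ∈ X.L V1 ∧ c2 ∉ X.L V2 ∧ c2 ∈ X.L V3 ∧ c2 ∉ X.L P) ∧
    (c1 ∉ X.L V1 ∧ c1 ∈ X.L V2 ∧ c1 ∈ X.L V3 ∧ c1 ∉ X.L P) ∧
    (3 ∣ X.m1 V1 + 2 * X.m2 V1 ∧ 3 ∣ X.m1 V2 + 2 * X.m2 V2 ∧ 3 ∣ X.m1 V3 + 2 * X.m2 V3 ∧
      3 ∣ X.m1 P + 2 * X.m2 P) ∧
    2 * X.w ≤ 3 + ((X.m1 V1 + X.m2 V1) + (X.m1 V2 + X.m2 V2) + (X.m1 V3 + X.m2 V3) + (X.m1 P + X.m2 P))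

lemma Quad.swap (h : Quad X.swap) : Quad X := by
  obtain ⟨V1, V2, V3, P, c1, c2, c3, h1, h2, h3, h4, h5, h6⟩ := h
  refine ⟨V1, V2, V3, P, c1, c2, c3, ?_, h2, h3, h4, ?_, ?_⟩
  · simp only [swap_A, swap_B] at h1
    rw [Finset.union_comm]
    exact h1
  · simp only [swap_m1, swap_m2] at h5
    omega
  · simp only [swap_m1, swap_m2, w, swap_A, swap_B] at h6
    unfold w
    omega

/-- three points on one line -/
lemma bonfA3' {P Q R : β} {c : α} (hc : c ∈ X.A) (h1 : c ∈ X.L P) (h2 : c ∈ X.L Q) (h3 : c ∈ X.L R) :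
    X.m1 P + X.m1 Q + X.m1 R + 1 ≤ X.A.card + X.a2 P Q + X.a2 P R + X.a2 Q R := by
  unfold m1 a2
  have h1' := Finset.card_union_add_card_inter (X.A ∩ X.L P) (X.A ∩ X.L Q)
  have h2' : X.A ∩ X.L P ∩ (X.A ∩ X.L Q) = X.A ∩ (X.L P ∩ X.L Q) := by
    ext i
    simp only [Finset.mem_inter]
    tauto
  have h3' := Finset.card_union_add_card_inter (X.A ∩ X.L P ∪ X.A ∩ X.L Q) (X.A ∩ X.L R)
  have h4 : (X.A ∩ X.L P ∪ X.A ∩ X.L Q) ∩ (X.A ∩ X.L R) =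
      X.A ∩ (X.L P ∩ X.L R) ∪ X.A ∩ (X.L Q ∩ X.L R) := by
    ext i
    simp only [Finset.mem_inter, Finset.mem_union]
    tauto
  have h5 := Finset.card_union_add_card_inter (X.A ∩ (X.L P ∩ X.L R)) (X.A ∩ (X.L Q ∩ X.L R))
  have h6 : (X.A ∩ X.L P ∪ X.A ∩ X.L Q ∪ X.A ∩ X.L R).card ≤ X.A.card :=
    Finset.card_le_card (Finset.union_subset (Finset.union_subset Finset.inter_subset_left
      Finset.inter_subset_left) Finset.inter_subset_left)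
  have h7 : 1 ≤ (X.A ∩ (X.L P ∩ X.L R) ∩ (X.A ∩ (X.L Q ∩ X.L R))).card := by
    rw [Nat.succ_le_iff, Finset.card_pos]
    refine ⟨c, ?_⟩
    simp only [Finset.mem_inter]
    exact ⟨⟨hc, h1, h3⟩, hc, h2, h3⟩
  rw [h2'] at h1'
  rw [h4] at h3'
  omega

lemma bonfB3' {P Q R : β} {c : α} (hc : c ∈ X.B) (h1 : c ∈ X.L P) (h2 : c ∈ X.L Q) (h3 : c ∈ X.L R) :
    X.m2 P + X.m2 Q + X.m2 R + 1 ≤ X.B.card + X.b2 P Q + X.b2 P R + X.b2 Q R :=
  bonfA3' (X := X.swap) hc h1 h2 h3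

lemma common {P Q : β} (h : X.b2 P Q = 1) : ∃ c ∈ X.B, c ∈ X.L P ∧ c ∈ X.L Q := by
  unfold b2 at h
  obtain ⟨c, hc⟩ := Finset.card_pos.1 (by rw [h]; exact Nat.one_pos)
  simp only [Finset.mem_inter] at hc
  exact ⟨c, hc⟩

lemma case63 (h : Hyp X d e) (hA : X.A.card = 6) (hB : X.B.card = 3) : Quad X := by
  have hd := h.hd
  have he := h.he
  have h1 : d = 4 := by omega
  have h1' : e = 5 := by omega
  have h2 := h.adj1
  have h2' := h.adj2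
  rw [h1] at h2
  rw [h1'] at h2'
  have hok : ∀ P, X.m1 P + X.m2 P + 4 ≤ 9 ∨ (X.m1 P + X.m2 P + 3 ≤ 9 ∧ ¬ 3 ∣ X.m1 P + 2 * X.m2 P) := by
    intro P
    have := h.ok P
    simp only [w, hA, hB] at this
    exact this
  have hP1 : ∀ P, X.m1 P ≤ 6 := fun P => by rw [← hA]; exact X.m1_le P
  have hP2 : ∀ P, X.m2 P ≤ 3 := fun P => by rw [← hB]; exact X.m2_le P
  obtain ⟨P, Q, R, hPT, hQT, hRT, hP, hQ, hR, h3, h4, h5⟩ :=
    exists_three (f := fun P => (X.m1 P + 2 * X.m2 P) / 3) (le_trans (by decide) h2) (fun P _ => by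
      have := hok P; have := hP1 P; have := hP2 P; omega)
  have key : (X.m1 P = 2 ∧ X.m2 P = 2) ∧ (X.m1 Q = 2 ∧ X.m2 Q = 2) ∧ (X.m1 R = 2 ∧ X.m2 R = 2) ∧
      X.b2 P Q = 1 ∧ X.b2 P R = 1 ∧ X.b2 Q R = 1 := by
    have hp1 := hok P
    have hp2 := hok Q
    have hp3 := hok R
    have hq1 := hP1 P
    have hq2 := hP1 Q
    have hq3 := hP1 R
    have hr1 := hP2 P
    have hr2 := hP2 Q
    have hr3 := hP2 R
    obtain ⟨⟨t1, t2⟩, ⟨t3, t4, t5⟩, ⟨t6, t7, t8⟩, ⟨t9, t10, t11⟩⟩ := X.tri h3 h4 h5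
    rw [hA] at t1 t6 t7 t8
    rw [hB] at t2 t9 t10 t11
    omega
  obtain ⟨⟨p1, p2⟩, ⟨q1, q2⟩, ⟨r1, r2⟩, b1, b2, b3⟩ := key
  -- a fourth point
  obtain ⟨S, hST, hSP, hSQ, hSR, hS⟩ : ∃ S ∈ X.T, S ≠ P ∧ S ≠ Q ∧ S ≠ R ∧ 2 ≤ (2 * X.m1 S + X.m2 S) / 3 := by
    by_contra hcon
    push Not at hcon
    have h6 : ∑ S ∈ X.T, ((2 * X.m1 S + X.m2 S) / 3).choose 2 =
        ∑ S ∈ ({P, Q, R} : Finset β), ((2 * X.m1 S + X.m2 S) / 3).choose 2 := by
      symm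
      refine Finset.sum_subset ?_ ?_
      · intro S hS
        simp only [Finset.mem_insert, Finset.mem_singleton] at hS
        rcases hS with rfl | rfl | rfl
        · exact hPT
        · exact hQT
        · exact hRT
      · intro S hS hS'
        simp only [Finset.mem_insert, Finset.mem_singleton, not_or] at hS'
        exact Nat.choose_eq_zero_of_lt (hcon S hS hS'.1 hS'.2.1 hS'.2.2)
    rw [h6, Finset.sum_insert, Finset.sum_insert, Finset.sum_singleton, p1, p2, q1, q2, r1, r2] at h2'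
    · revert h2'
      decide
    · simpa using h5
    · simp only [Finset.mem_insert, Finset.mem_singleton, not_or]
      exact ⟨h3, h4⟩
  have h7 := X.conv {P, Q, R, S} 1 1
  rw [Finset.sum_insert, Finset.sum_insert, Finset.sum_insert, Finset.sum_singleton,
    Finset.sum_insert, Finset.sum_insert, Finset.sum_insert, Finset.sum_singleton,
    Finset.card_insert_of_notMem, Finset.card_insert_of_notMem, Finset.card_insert_of_notMem,
    Finset.card_singleton, p1, p2, q1, q2, r1, r2, hA, hB] at h7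
  rotate_left
  · simpa using hSR.symm
  · simp only [Finset.mem_insert, Finset.mem_singleton, not_or]
    exact ⟨h5, hSQ.symm⟩
  · simp only [Finset.mem_insert, Finset.mem_singleton, not_or]
    exact ⟨h3, h4, hSP.symm⟩
  · simpa using hSR.symm
  · simp only [Finset.mem_insert, Finset.mem_singleton, not_or]
    exact ⟨h5, hSQ.symm⟩
  · simp only [Finset.mem_insert, Finset.mem_singleton, not_or]
    exact ⟨h3, h4, hSP.symm⟩
  · simpa using hSR.symm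
  · simp only [Finset.mem_insert, Finset.mem_singleton, not_or]
    exact ⟨h5, hSQ.symm⟩
  · simp only [Finset.mem_insert, Finset.mem_singleton, not_or]
    exact ⟨h3, h4, hSP.symm⟩
  push_cast at h7
  have s1 : X.m1 S = 3 := by omega
  have s2 : X.m2 S = 0 := by omega
  have hS0 : ∀ c ∈ X.B, c ∉ X.L S := by
    intro c hc hcS
    unfold m2 at s2
    rw [Finset.card_eq_zero] at s2
    have : c ∈ X.B ∩ X.L S := Finset.mem_inter.2 ⟨hc, hcS⟩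
    rw [s2] at this
    simp at this
  have hno : ∀ c ∈ X.B, ¬ (c ∈ X.L P ∧ c ∈ X.L Q ∧ c ∈ X.L R) := by
    rintro c hc ⟨c1, c2, c3⟩
    have := bonfB3' hc c1 c2 c3
    omega
  obtain ⟨c3, hc3, c3P, c3Q⟩ := common b1
  obtain ⟨c2, hc2, c2P, c2R⟩ := common b2
  obtain ⟨c1, hc1, c1Q, c1R⟩ := common b3
  refine ⟨P, Q, R, S, c1, c2, c3, ⟨Finset.mem_union_right _ hc1, Finset.mem_union_right _ hc2,
    Finset.mem_union_right _ hc3⟩, ⟨c3P, c3Q, fun h => hno c3 hc3 ⟨c3P, c3Q, h⟩, hS0 _ hc3⟩,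
    ⟨c2P, fun h => hno c2 hc2 ⟨c2P, h, c2R⟩, c2R, hS0 _ hc2⟩,
    ⟨fun h => hno c1 hc1 ⟨h, c1Q, c1R⟩, c1Q, c1R, hS0 _ hc1⟩, ?_, ?_⟩
  · rw [p1, p2, q1, q2, r1, r2, s1, s2]
    decide
  · unfold w
    rw [p1, p2, q1, q2, r1, r2, s1, s2, hA, hB]

end Arr

end Pool.Agent.H875.CL
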