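import Mathlib
import Pool.Agent.H875.CL.Small
import Pool.Agent.H875.CL.Cert
import Pool.Agent.H875.CL.Quad
import Pool.Agent.H875.CL.Five

/-!
# The numerical theorem
-/

set_option autoImplicit false

namespace Pool.Agent.H875.CL

variable {α β : Type} [DecidableEq α] [DecidableEq β] {X : Arr α β}

namespace Arr

variable {d e : ℕ}

lemma quad_of_le (h : Hyp X d e) (hw : 5 ≤ X.w) (hle : X.B.card ≤ X.A.card) : Quad X := by
  by_cases h12 : 12 ≤ X.w
  · exact (case_large h h12).elim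
  have hd := h.hd
  have he := h.he
  unfold w at hw h12
  have hc : (X.A.card = 4 ∧ X.B.card = 1) ∨ (X.A.card = 6 ∧ X.B.card = 0) ∨ (X.A.card = 3 ∧ X.B.card = 3) ∨
      (X.A.card = 5 ∧ X.B.card = 2) ∨ (X.A.card = 7 ∧ X.B.card = 1) ∨ (X.A.card = 4 ∧ X.B.card = 4) ∨
      (X.A.card = 9 ∧ X.B.card = 0) ∨ (X.A.card = 6 ∧ X.B.card = 3) ∨ (X.A.card = 8 ∧ X.B.card = 2) ∨
      (X.A.card = 5 ∧ X.B.card = 5) ∨ (X.A.card = 10 ∧ X.B.card = 1) ∨
      (X.A.card = 7 ∧ X.B.card = 4) := by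
    generalize X.A.card = a at *
    generalize X.B.card = b at *
    have hb : b < 6 := by omega
    interval_cases b <;> omega
  rcases hc with ⟨h1, h2⟩ | ⟨h1, h2⟩ | ⟨h1, h2⟩ | ⟨h1, h2⟩ | ⟨h1, h2⟩ | ⟨h1, h2⟩ | ⟨h1, h2⟩ | ⟨h1, h2⟩ |
    ⟨h1, h2⟩ | ⟨h1, h2⟩ | ⟨h1, h2⟩ | ⟨h1, h2⟩
  · exact (case41 h h1 h2).elim
  · exact (case60 h h1 h2).elim
  · exact (case33 h h1 h2).elim
  · exact (case52 h h1 h2).elim
  · exact (case71 h h1 h2).elim
  · exact (case44 h h1 h2).elim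
  · exact (case90 h h1 h2).elim
  · exact case63 h h1 h2
  · exact (case82 h h1 h2).elim
  · exact (case55 h h1 h2).elim
  · exact (case101 h h1 h2).elim
  · exact (case74 h h1 h2).elim

theorem quad (h : Hyp X d e) (hw : 5 ≤ X.w) : Quad X := by
  rcases le_total X.B.card X.A.card with hle | hle
  · exact quad_of_le h hw hle
  · refine Quad.swap (quad_of_le h.swap ?_ hle)
    simp only [w, swap_A, swap_B]
    unfold w at hw
    omega

end Arr

end Pool.Agent.H875.CL
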