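import Mathlib
import Pool.Graph.R_pool_sql_team_seeded_2aa45f1a.Q63.LA.Points
import Pool.Graph.R_pool_sql_team_seeded_2aa45f1a.Q63.PC.Defs

/-!
# Abelian coverings of the plane branched over lines in arbitrary position: definitions
-/

set_option autoImplicit false

namespace Pool.Agent.H875.CL

open Matrix Pool.Agent.Q63.LA Pool.Agent.Q63.PC

/-- The degree `(∑ a i) / m` of the line bundle of the character `a`, with the representatives of the `a i` in
`{0, …, m - 1}`. -/
def deg {m s : ℕ} (a : Fin s → ZMod m) : ℕ := (∑ i, (a i).val) / m

/-- The number of the branch lines (`a i ≠ 0`) of the cyclic covering `X / ker a`. -/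
def lines {m s : ℕ} (a : Fin s → ZMod m) : ℕ := (Finset.univ.filter fun i => a i ≠ 0).card

open Classical in
/-- The lines `v i ⬝ᵥ z = 0` through the point `P`. -/
noncomputable def thr {s : ℕ} (v : Fin s → Fin 3 → ℂ) (P : Plane) : Finset (Fin s) :=
  Finset.univ.filter fun i => v i ⬝ᵥ P.rep = 0

/-- The integral part of `(∑ a i) / m`, where the sum is over the lines through `P`. -/
noncomputable def ord {m s : ℕ} (v : Fin s → Fin 3 → ℂ) (a : Fin s → ZMod m) (P : Plane) : ℕ :=
  (∑ i ∈ thr v P, (a i).val) / m

/-- The number of the branch lines of `X / ker a` through `P`. -/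
noncomputable def mul {m s : ℕ} (v : Fin s → Fin 3 → ℂ) (a : Fin s → ZMod m) (P : Plane) : ℕ :=
  ((thr v P).filter fun i => a i ≠ 0).card

open Classical in
/-- `1` if the exceptional curve over `P` is a branch curve of `X / ker a` (over the blow-up of the plane), otherwise
`0`. -/
noncomputable def exc {m s : ℕ} (v : Fin s → Fin 3 → ℂ) (a : Fin s → ZMod m) (P : Plane) : ℕ :=
  if ∑ i ∈ thr v P, a i = 0 then 0 else 1

/-- No three of the four points are on a line. -/
def GeneralPosition (P : Fin 4 → Plane) : Prop :=
  ∀ u : Fin 3 → ℂ, u ≠ 0 → ∀ i j k : Fin 4, i < j → j < k →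
    ¬ (u ⬝ᵥ (P i).rep = 0 ∧ u ⬝ᵥ (P j).rep = 0 ∧ u ⬝ᵥ (P k).rep = 0)

/-- There is a pencil of rational curves on the plane, the lines through a point or the conics through four points in
general position, such that the restriction of the cyclic covering `X / ker a` of the plane to a general curve of the
pencil has at most three branch points. (A general line through `P` meets the branch lines in
`lines a - mul v a P` points outside of `P`, and `P` counts if and only if the exceptional curve is a branch curve.) -/
def Pencil {m s : ℕ} (v : Fin s → Fin 3 → ℂ) (a : Fin s → ZMod m) : Prop :=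
  (∃ P : Plane, lines a + exc v a P ≤ mul v a P + 3) ∨
  ∃ P : Fin 4 → Plane, GeneralPosition P ∧ 2 * lines a + ∑ i, exc v a (P i) ≤ ∑ i, mul v a (P i) + 3

/-- `X` is a smooth projective complex surface which is birational to an abelian covering of the plane, with the
group `G`, a quotient of `(ℤ/m)^s`, branched over the lines `v i ⬝ᵥ z = 0` (in arbitrary position; the `i`-th generator of
`(ℤ/m)^s` goes to the canonical generator of the inertia group of the `i`-th line); `Λ` is the group of the characters of
`G`. `g a` is the dimension of the part of the two-forms of `X` which belongs to the character `a`, so that the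
geometric genus of `X` is the sum of the `g a`, `a ∈ Λ`, `a ≠ 0`, and the one of the cyclic covering `X / ker a` of the
plane is the sum over the nonzero multiples of `a`. `V` is the Albanese kernel of `X`, tensored with `ℂ`, with the
action `ρ` of the group. -/
structure LineCover {m s : ℕ} (v : Fin s → Fin 3 → ℂ) (Λ : AddSubgroup (Fin s → ZMod m))
    (g : (Fin s → ZMod m) → ℕ) (ψ : AddChar (ZMod m) ℂ) {V : Type} [AddCommGroup V] [Module ℂ V]
    (ρ : Representation ℂ (Multiplicative (Fin s → ZMod m)) V) : Prop where
  distinct : Distinct v
  /-- the degrees of the line bundles are integers -/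
  integral : ∀ a ∈ Λ, ∑ i, a i = 0
  /-- only characters of `G` occur -/
  characters : ∀ (a : Fin s → ZMod m) (x : V), x ≠ 0 → Eigen ψ ρ a x → a ∈ Λ
  /-- The two-forms which belong to the character `a` are the plane curves of degree `deg a - 3` with multiplicity at
  least `ord v a P - 1` at each point `P`, which is a condition of codimension at most
  `ord v a P * (ord v a P - 1) / 2`. -/
  adjoint : ∀ a ∈ Λ, a ≠ 0 → (deg a - 1).choose 2 ≤ g a + ∑ᶠ P : Plane, (ord v a P).choose 2
  /-- **Hirzebruch's inequality** for line arrangements, a consequence of the Bogomolov-Miyaoka-Yau inequality: if no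
  point is on more than `w - 3` of `w` lines then `t_2 + 3/4 t_3 ≥ w + ∑ (2 m - 9) t_m`, where the sum is over
  `m ≥ 5`, and `t_m` is the number of the points of multiplicity `m`. -/
  hirzebruch : ∀ a ∈ Λ, (∀ P, mul v a P + 3 ≤ lines a) →
    4 * lines a + 4 * ∑ᶠ P : Plane, (2 * mul v a P - 9) ≤
      4 * {P : Plane | mul v a P = 2}.ncard + 3 * {P : Plane | mul v a P = 3}.ncard
  /-- A surface without two-forms which has a pencil of curves which are cyclic coverings of the line with at most three
  branch points has no Albanese kernel: this is the theorem of Bloch, Kas and Lieberman if the order of the covering is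
  three, as the genus of these curves is at most one. (In general all these curves are isomorphic; the surface is
  dominated by a product of curves and one uses the theorem of Kimura.) -/
  known : ∀ a ∈ Λ, (∀ k : ℕ, k • a ≠ 0 → g (k • a) = 0) → Pencil v a → ∀ x, KerFixed ρ a x → x = 0

end Pool.Agent.H875.CL
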