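import Mathlib
import Pool.Agent.H875.CL.Defs
import Pool.Agent.H875.CL.Abs
import Pool.Graph.R_pool_sql_team_seeded_2aa45f1a.Q63.PC.Main

/-!
# Coverings of the plane with group `(ℤ/3)^k` branched over lines in arbitrary position
-/

set_option autoImplicit false

namespace Pool.Agent.H875.CL

open Matrix Multiplicative Pool.Agent.Q63.LA Pool.Agent.Q63.PC Pool.Agent.Q63.KU

variable {s : ℕ} {v : Fin s → Fin 3 → ℂ}

/-- decidable equality of points -/
noncomputable instance decPlane : DecidableEq Plane := Classical.decEq _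

/-- the arrangement of the lines with `a i ≠ 0` -/
noncomputable def arr (hv : Distinct v) (a : Fin s → ZMod 3) : Arr (Fin s) Plane where
  A := Finset.univ.filter fun i => a i = 1
  B := Finset.univ.filter fun i => a i = 2
  T := ((Finset.univ.filter fun i => a i = 1) ∪ Finset.univ.filter fun i => a i = 2).offDiag.image (pt v)
  L := thr v
  disj := by
    rw [Finset.disjoint_left]
    intro i h1 h2
    rw [Finset.mem_filter] at h1 h2
    have := h1.2.symm.trans h2.2
    exact absurd this (by decide)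
  unique := by
    intro P Q hPQ i _ j _ h1 h2 h3 h4
    by_contra hij
    simp only [thr, Finset.mem_filter, Finset.mem_univ, true_and] at h1 h2 h3 h4
    exact hPQ (((pt_eq_iff hv hij P).2 ⟨h1, h3⟩).symm.trans ((pt_eq_iff hv hij Q).2 ⟨h2, h4⟩))
  meet := by
    intro i hi j hj hij
    refine ⟨pt v (i, j), Finset.mem_image_of_mem _ ?_, ?_⟩
    · rw [Finset.mem_offDiag]
      exact ⟨hi, hj, hij⟩
    · have := (pt_eq_iff hv hij (pt v (i, j))).1 rfl
      simp only [thr, Finset.mem_filter, Finset.mem_univ, true_and]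
      exact this

lemma sum_val {ι : Type} [DecidableEq ι] (S : Finset ι) (b : ι → ZMod 3) :
    ∑ i ∈ S, (b i).val = (S.filter fun i => b i = 1).card + 2 * (S.filter fun i => b i = 2).card := by
  have h1 : ∀ x : ZMod 3, x.val = (if x = 1 then 1 else 0) + 2 * (if x = 2 then 1 else 0) := by decide
  rw [Finset.sum_congr rfl fun i _ => h1 (b i), Finset.sum_add_distrib, ← Finset.mul_sum,
    ← Finset.card_filter, ← Finset.card_filter]

lemma card_ne {ι : Type} [DecidableEq ι] (S : Finset ι) (b : ι → ZMod 3) :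
    (S.filter fun i => b i ≠ 0).card = (S.filter fun i => b i = 1).card + (S.filter fun i => b i = 2).card := by
  have h1 : ∀ x : ZMod 3, (if x ≠ 0 then 1 else 0 : ℕ) = (if x = 1 then 1 else 0) + (if x = 2 then 1 else 0) := by
    decide
  rw [Finset.card_filter, Finset.sum_congr rfl fun i _ => h1 (b i), Finset.sum_add_distrib,
    ← Finset.card_filter, ← Finset.card_filter]

lemma neg_one_iff (x : ZMod 3) : -x = 1 ↔ x = 2 := by revert x; decide
lemma neg_two_iff (x : ZMod 3) : -x = 2 ↔ x = 1 := by revert x; decide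

lemma sum_val_neg {ι : Type} [DecidableEq ι] (S : Finset ι) (b : ι → ZMod 3) :
    ∑ i ∈ S, (-b i).val = 2 * (S.filter fun i => b i = 1).card + (S.filter fun i => b i = 2).card := by
  rw [sum_val S fun i => -b i]
  simp_rw [neg_one_iff, neg_two_iff]
  omega

variable (hv : Distinct v) (a : Fin s → ZMod 3)

lemma m1_eq (P : Plane) : (arr hv a).m1 P = ((thr v P).filter fun i => a i = 1).card := by
  unfold Arr.m1 arr
  congr 1
  ext i
  simp only [Finset.mem_inter, Finset.mem_filter, Finset.mem_univ, true_and]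
  tauto

lemma m2_eq (P : Plane) : (arr hv a).m2 P = ((thr v P).filter fun i => a i = 2).card := by
  unfold Arr.m2 arr
  congr 1
  ext i
  simp only [Finset.mem_inter, Finset.mem_filter, Finset.mem_univ, true_and]
  tauto

lemma mul_eq (P : Plane) : mul v a P = (arr hv a).m1 P + (arr hv a).m2 P := by
  rw [m1_eq, m2_eq, mul, card_ne]

lemma lines_eq : lines a = (arr hv a).w := by
  unfold lines Arr.w
  rw [card_ne]
  rfl

lemma ord_eq (P : Plane) : ord v a P = ((arr hv a).m1 P + 2 * (arr hv a).m2 P) / 3 := by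
  rw [ord, sum_val, m1_eq, m2_eq]

lemma ord_neg_eq (P : Plane) : ord v (-a) P = (2 * (arr hv a).m1 P + (arr hv a).m2 P) / 3 := by
  rw [ord, m1_eq, m2_eq, ← sum_val_neg]
  rfl

lemma deg_eq : deg a = ((arr hv a).A.card + 2 * (arr hv a).B.card) / 3 := by
  rw [deg, sum_val]
  rfl

lemma deg_neg_eq : deg (-a) = (2 * (arr hv a).A.card + (arr hv a).B.card) / 3 := by
  have h1 := sum_val_neg Finset.univ a
  rw [deg]
  rw [show ∑ i, ((-a) i).val = ∑ i, (-a i).val from rfl, h1]
  rfl

lemma sum_cast {ι : Type} (S : Finset ι) (b : ι → ZMod 3) : ((∑ i ∈ S, (b i).val : ℕ) : ZMod 3) = ∑ i ∈ S, b i := by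
  rw [Nat.cast_sum]
  exact Finset.sum_congr rfl fun i _ => by rw [ZMod.natCast_val, ZMod.cast_id]

lemma exc_eq (P : Plane) : exc v a P = if 3 ∣ (arr hv a).m1 P + 2 * (arr hv a).m2 P then 0 else 1 := by
  unfold exc
  rw [← sum_cast, sum_val, ← m1_eq hv, ← m2_eq hv]
  by_cases h : 3 ∣ (arr hv a).m1 P + 2 * (arr hv a).m2 P
  · rw [if_pos h, if_pos ((ZMod.natCast_eq_zero_iff _ _).2 h)]
  · rw [if_neg h, if_neg fun h' => h ((ZMod.natCast_eq_zero_iff _ _).1 h')]

lemma mem_T {P : Plane} (h : 2 ≤ mul v a P) : P ∈ (arr hv a).T := by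
  classical
  unfold mul at h
  obtain ⟨i, hi, j, hj, hij⟩ := Finset.one_lt_card.1 (lt_of_lt_of_le one_lt_two h)
  rw [Finset.mem_filter] at hi hj
  have hAB : ∀ k, a k ≠ 0 → k ∈ (arr hv a).A ∪ (arr hv a).B := by
    intro k hk
    have h1 : ∀ x : ZMod 3, x ≠ 0 → x = 1 ∨ x = 2 := by decide
    simp only [arr, Finset.mem_union, Finset.mem_filter, Finset.mem_univ, true_and]
    exact h1 _ hk
  obtain ⟨Q, hQ, h1, h2⟩ := (arr hv a).meet i (hAB i hi.2) j (hAB j hj.2) hij
  have : P = Q := by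
    by_contra hne
    exact hij ((arr hv a).unique P Q hne i (hAB i hi.2) j (hAB j hj.2) hi.1 h1 hj.1 h2)
  rw [this]
  exact hQ

lemma two_le_of_mem {P : Plane} (h : P ∈ (arr hv a).T) : 2 ≤ mul v a P := by
  have h' : P ∈ ((Finset.univ.filter fun i => a i = 1) ∪ Finset.univ.filter fun i => a i = 2).offDiag.image (pt v) := by
    have h2 : (arr hv a).T =
      ((Finset.univ.filter fun i => a i = 1) ∪ Finset.univ.filter fun i => a i = 2).offDiag.image (pt v) := by
      rfl
    rw [← h2]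
    exact h
  rw [Finset.mem_image] at h'
  obtain ⟨⟨i, j⟩, hij, rfl⟩ := h'
  rw [Finset.mem_offDiag] at hij
  simp only [Finset.mem_union, Finset.mem_filter, Finset.mem_univ, true_and] at hij
  obtain ⟨h1, h2⟩ := (pt_eq_iff hv hij.2.2 (pt v (i, j))).1 rfl
  have h3 : ∀ x : ZMod 3, (x = 1 ∨ x = 2) → x ≠ 0 := by decide
  unfold mul
  refine Finset.one_lt_card.2 ⟨i, ?_, j, ?_, hij.2.2⟩
  · rw [Finset.mem_filter]
    exact ⟨by simpa [thr] using h1, h3 _ hij.1⟩
  · rw [Finset.mem_filter]
    exact ⟨by simpa [thr] using h2, h3 _ hij.2.1⟩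

lemma finsum_T (f : Plane → ℕ) (hf : ∀ P, f P ≠ 0 → 2 ≤ mul v a P) :
    ∑ᶠ P : Plane, f P = ∑ P ∈ (arr hv a).T, f P := by
  refine finsum_eq_sum_of_support_subset _ fun P hP => ?_
  rw [Function.mem_support] at hP
  exact mem_T hv a (hf P hP)

/-- two lines with two common points are equal -/
lemma proportional {u c : Fin 3 → ℂ} (hu : u ≠ 0) {P Q : Plane} (hPQ : P ≠ Q) (h1 : u ⬝ᵥ P.rep = 0)
    (h2 : u ⬝ᵥ Q.rep = 0) (h3 : c ⬝ᵥ P.rep = 0) (h4 : c ⬝ᵥ Q.rep = 0) {R : Plane} (h5 : u ⬝ᵥ R.rep = 0) :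
    c ⬝ᵥ R.rep = 0 := by
  by_cases hli : LinearIndependent ℂ ![u, c]
  · exfalso
    have hd : Distinct ![u, c] := by
      intro i j hij
      fin_cases i <;> fin_cases j
      · exact absurd rfl hij
      · exact hli
      · exact LinearIndependent.pair_symm_iff.1 hli
      · exact absurd rfl hij
    have h01 : (0 : Fin 2) ≠ 1 := by decide
    exact hPQ (((pt_eq_iff hd h01 P).2 ⟨h1, h3⟩).symm.trans ((pt_eq_iff hd h01 Q).2 ⟨h2, h4⟩))
  · rw [LinearIndependent.pair_iff] at hli
    push Not at hli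
    obtain ⟨α, β, hαβ, hne⟩ := hli
    have hβ : β ≠ 0 := by
      intro hβ
      rw [hβ, zero_smul, add_zero] at hαβ
      rcases smul_eq_zero.1 hαβ with h6 | h6
      · exact hne h6 hβ
      · exact hu h6
    have h6 : β • (c ⬝ᵥ R.rep) = 0 := by
      have h7 : (α • u + β • c) ⬝ᵥ R.rep = 0 := by rw [hαβ, zero_dotProduct]
      rw [add_dotProduct, smul_dotProduct, smul_dotProduct, h5, smul_zero, zero_add] at h7
      exact h7
    rcases smul_eq_zero.1 h6 with h7 | h7
    · exact absurd h7 hβ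
    · exact h7

lemma mem_L {P : Plane} {i : Fin s} : i ∈ (arr hv a).L P ↔ v i ⬝ᵥ P.rep = 0 := by
  have : (arr hv a).L P = thr v P := rfl
  rw [this]
  simp [thr]

lemma triples : ∀ i j k : Fin 4, i < j → j < k → (i = 0 ∧ j = 1 ∧ k = 2) ∨ (i = 0 ∧ j = 1 ∧ k = 3) ∨
    (i = 0 ∧ j = 2 ∧ k = 3) ∨ (i = 1 ∧ j = 2 ∧ k = 3) := by
  decide

/-- the abstract condition gives a pencil of conics -/
lemma pencil_of_quad (h : (arr hv a).Quad) : Pencil v a := by
  obtain ⟨V1, V2, V3, P, c1, c2, c3, _, ⟨h31, h32, h33, h3P⟩, ⟨h21, h22, h23, h2P⟩,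
    ⟨h11, h12, h13, h1P⟩, ⟨e1, e2, e3, e4⟩, hle⟩ := h
  simp only [mem_L] at h31 h32 h33 h3P h21 h22 h23 h2P h11 h12 h13 h1P
  have n12 : V1 ≠ V2 := by rintro rfl; exact h11 h12
  have n13 : V1 ≠ V3 := by rintro rfl; exact h11 h13
  have n23 : V2 ≠ V3 := by rintro rfl; exact h22 h23
  refine Or.inr ⟨![V1, V2, V3, P], ?_, ?_⟩
  · intro u hu i j k hij hjk
    rintro ⟨hi, hj, hk⟩
    have hc := triples i j k hij hjk
    rcases hc with ⟨rfl, rfl, rfl⟩ | ⟨rfl, rfl, rfl⟩ | ⟨rfl, rfl, rfl⟩ | ⟨rfl, rfl, rfl⟩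
    · exact h33 (proportional hu n12 hi hj h31 h32 hk)
    · exact h3P (proportional hu n12 hi hj h31 h32 hk)
    · exact h2P (proportional hu n13 hi hj h21 h23 hk)
    · exact h1P (proportional hu n23 hi hj h12 h13 hk)
  · simp only [Fin.sum_univ_four, Matrix.cons_val_zero, Matrix.cons_val_one, Matrix.cons_val]
    rw [exc_eq hv, exc_eq hv, exc_eq hv, exc_eq hv, if_pos e1, if_pos e2, if_pos e3, if_pos e4,
      mul_eq hv, mul_eq hv, mul_eq hv, mul_eq hv, lines_eq hv]
    omega

lemma hz_eq (m : ℕ) : hz m = 4 * (if m = 2 then 1 else 0) + 3 * (if m = 3 then 1 else 0) -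
    4 * ((2 * m - 9 : ℕ) : ℤ) := by
  unfold hz
  by_cases h2 : m = 2
  · subst h2; simp
  by_cases h3 : m = 3
  · subst h3; simp
  rw [if_neg h2, if_neg h3, if_neg h2, if_neg h3]
  by_cases h4 : m ≤ 4
  · rw [if_pos h4, Nat.sub_eq_zero_of_le (by omega)]
    simp
  · rw [if_neg h4, Nat.cast_sub (by omega)]
    push_cast
    ring

lemma mod_three (ha : ∑ i, a i = 0) : 3 ∣ (arr hv a).A.card + 2 * (arr hv a).B.card := by
  rw [← ZMod.natCast_eq_zero_iff]
  have h1 : (arr hv a).A.card + 2 * (arr hv a).B.card = ∑ i, (a i).val := by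
    rw [sum_val]
    rfl
  rw [h1, sum_cast, ha]

/-- The two-forms determine the position of the lines. -/
theorem exists_pencil {Λ : AddSubgroup (Fin s → ZMod 3)} {g : (Fin s → ZMod 3) → ℕ}
    {ψ : AddChar (ZMod 3) ℂ} {V : Type} [AddCommGroup V] [Module ℂ V]
    {ρ : Representation ℂ (Multiplicative (Fin s → ZMod 3)) V} (hX : LineCover v Λ g ψ ρ)
    {a : Fin s → ZMod 3} (ha : a ∈ Λ) (h1 : g a = 0) (h2 : g (-a) = 0) : Pencil v a := by
  have hv := hX.distinct
  by_contra hcon
  have hno : ∀ P : Plane, mul v a P + 4 ≤ lines a + exc v a P := by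
    intro P
    by_contra hP
    exact hcon (Or.inl ⟨P, by omega⟩)
  have hexc : ∀ P : Plane, exc v a P ≤ 1 := by
    intro P
    unfold exc
    split_ifs <;> omega
  let P0 : Plane := Projectivization.mk ℂ (fun _ => 1) (fun h => one_ne_zero (congrFun h 0))
  -- at least five lines
  have hw : 5 ≤ lines a := by
    have h3 := hno P0
    have h4 := hexc P0
    have h5 : 1 < (Finset.univ.filter fun i => a i ≠ 0).card := by
      have : lines a = (Finset.univ.filter fun i => a i ≠ 0).card := rfl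
      omega
    obtain ⟨i, hi, j, hj, hij⟩ := Finset.one_lt_card.1 h5
    rw [Finset.mem_filter] at hi hj
    have h6 := (pt_eq_iff hv hij (pt v (i, j))).1 rfl
    have h7 : 2 ≤ mul v a (pt v (i, j)) := by
      unfold mul
      refine Finset.one_lt_card.2 ⟨i, ?_, j, ?_, hij⟩
      · rw [Finset.mem_filter]
        exact ⟨by simpa [thr] using h6.1, hi.2⟩
      · rw [Finset.mem_filter]
        exact ⟨by simpa [thr] using h6.2, hj.2⟩
    have h8 := hno (pt v (i, j))
    have h9 := hexc (pt v (i, j))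
    omega
  have ha0 : a ≠ 0 := by
    rintro rfl
    have : lines (0 : Fin s → ZMod 3) = 0 := by simp [lines]
    omega
  have h3 := mod_three hv a (hX.integral a ha)
  have hadj1 := hX.adjoint a ha ha0
  have hadj2 := hX.adjoint (-a) (Λ.neg_mem ha) (neg_ne_zero.2 ha0)
  rw [h1, zero_add] at hadj1
  rw [h2, zero_add] at hadj2
  simp_rw [ord_eq hv a] at hadj1
  simp_rw [ord_neg_eq hv a] at hadj2
  rw [finsum_T hv a] at hadj1 hadj2
  rotate_left
  · intro P hP
    rw [Nat.choose_ne_zero_iff] at hP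
    rw [mul_eq hv]
    omega
  · intro P hP
    rw [Nat.choose_ne_zero_iff] at hP
    rw [mul_eq hv]
    omega
  have hH := hX.hirzebruch a ha fun P => by
    have := hno P
    have := hexc P
    omega
  rw [finsum_T hv a (fun P => 2 * mul v a P - 9) (fun P hP => by omega)] at hH
  have hset : ∀ n, 2 ≤ n → {P : Plane | mul v a P = n}.ncard =
      ((arr hv a).T.filter fun P => mul v a P = n).card := by
    intro n hn
    rw [← Set.ncard_coe_finset]
    congr 1
    ext P
    simp only [Set.mem_ofPred_eq, Finset.coe_filter]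
    constructor
    · intro h4
      exact ⟨mem_T hv a (by omega), h4⟩
    · exact fun h4 => h4.2
  rw [hset 2 le_rfl, hset 3 (by norm_num)] at hH
  have hyp : (arr hv a).Hyp (deg a) (deg (-a)) := by
    refine ⟨?_, ?_, ?_, ?_, hadj1, hadj2, ?_⟩
    · rw [deg_eq hv]
      omega
    · rw [deg_neg_eq hv]
      omega
    · intro P hP
      rw [← mul_eq]
      exact two_le_of_mem hv a hP
    · intro P
      have h4 := hno P
      rw [mul_eq hv, lines_eq hv, exc_eq hv] at h4
      by_cases h5 : 3 ∣ (arr hv a).m1 P + 2 * (arr hv a).m2 P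
      · rw [if_pos h5] at h4
        exact Or.inl (by omega)
      · rw [if_neg h5] at h4
        exact Or.inr ⟨by omega, h5⟩
    · simp_rw [← mul_eq, hz_eq]
      rw [Finset.sum_sub_distrib, Finset.sum_add_distrib, ← Finset.mul_sum, ← Finset.mul_sum,
        ← Finset.mul_sum, ← lines_eq hv]
      have h4 : ∀ n, ∑ P ∈ (arr hv a).T, (if mul v a P = n then 1 else 0 : ℤ) =
          ((arr hv a).T.filter fun P => mul v a P = n).card := by
        intro n
        rw [Finset.card_filter]
        push_cast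
        rfl
      rw [h4, h4]
      have h5 : ((4 * lines a + 4 * ∑ P ∈ (arr hv a).T, (2 * mul v a P - 9) : ℕ) : ℤ) ≤
          ((4 * ((arr hv a).T.filter fun P => mul v a P = 2).card +
            3 * ((arr hv a).T.filter fun P => mul v a P = 3).card : ℕ) : ℤ) := by exact_mod_cast hH
      rw [Nat.cast_add, Nat.cast_add, Nat.cast_mul, Nat.cast_mul, Nat.cast_mul, Nat.cast_mul,
        Nat.cast_sum] at h5
      push_cast at h5 ⊢
      linarith
  exact hcon (pencil_of_quad hv a (Arr.quad hyp (by rw [← lines_eq hv]; exact hw)))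

/-- correspondences in the rational group ring -/
theorem groupRing {Λ : AddSubgroup (Fin s → ZMod 3)} {g : (Fin s → ZMod 3) → ℕ}
    {ψ : AddChar (ZMod 3) ℂ} (hψ : ψ.IsPrimitive) {V : Type} [AddCommGroup V] [Module ℂ V]
    {ρ : Representation ℂ (Multiplicative (Fin s → ZMod 3)) V} (hX : LineCover v Λ g ψ ρ)
    (z : (Fin s → ZMod 3) → ℚ) (hz : ∀ a ∈ Λ, g a ≠ 0 → ∑ h, (z h : ℂ) * ψ (∑ i, a i * h i) = 0) (x : V) :
    ∑ h, (z h : ℂ) • ρ (ofAdd h) x = 0 := by
  have key : ∀ (a : Fin s → ZMod 3) (y : V), Eigen ψ ρ a y → ∑ h, (z h : ℂ) • ρ (ofAdd h) y = 0 := by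
    intro a y hy
    have h1 : ∑ h, (z h : ℂ) • ρ (ofAdd h) y = (∑ h, (z h : ℂ) * ψ (∑ i, a i * h i)) • y := by
      rw [Finset.sum_smul]
      exact Finset.sum_congr rfl fun h _ => by rw [hy h, smul_smul]
    rw [h1]
    by_cases h0 : ∑ h, (z h : ℂ) * ψ (∑ i, a i * h i) = 0
    · rw [h0, zero_smul]
    · rw [show y = 0 from ?_, smul_zero]
      by_contra hy0
      have ha := hX.characters a y hy0 hy
      have hg : g a = 0 := by
        by_contra hcon
        exact h0 (hz a ha hcon)
      have hg' : g (-a) = 0 := by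
        by_contra hcon
        have h2 := hz (-a) (Λ.neg_mem ha) hcon
        apply h0
        have h3 : ∀ h : Fin s → ZMod 3, ∑ i, (-a) i * h i = -∑ i, a i * h i := by
          intro h
          rw [← Finset.sum_neg_distrib]
          exact Finset.sum_congr rfl fun i _ => by rw [Pi.neg_apply, neg_mul]
        simp_rw [h3] at h2
        have h4 := galois hψ Finset.univ z (fun h : Fin s → ZMod 3 => -∑ i, a i * h i) (-1) h2
        rw [← h4]
        refine Finset.sum_congr rfl fun h _ => ?_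
        congr 2
        simp
      refine hy0 (hX.known a ha ?_ (exists_pencil hX ha hg hg') y hy.kerFixed)
      intro k hk
      have h5 : k • a = 0 ∨ k • a = a ∨ k • a = -a := by
        have h6 : ((k : ZMod 3) = 0) ∨ ((k : ZMod 3) = 1) ∨ ((k : ZMod 3) = -1) := by
          generalize (k : ZMod 3) = t
          revert t
          decide
        have h7 : k • a = (k : ZMod 3) • a := by rw [Nat.cast_smul_eq_nsmul]
        rw [h7]
        rcases h6 with h6 | h6 | h6 <;> rw [h6]
        · exact Or.inl (zero_smul _ _)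
        · exact Or.inr (Or.inl (one_smul _ _))
        · exact Or.inr (Or.inr (by rw [neg_smul, one_smul]))
      rcases h5 with h5 | h5 | h5
      · exact absurd h5 hk
      · rw [h5, hg]
      · rw [h5, hg']
  have h1 := sum_comp (ρ := ρ) hψ x
  rw [← h1]
  simp_rw [map_sum, Finset.smul_sum]
  rw [Finset.sum_comm]
  exact Finset.sum_eq_zero fun a _ => key a _ (eigen_comp x a)

end Pool.Agent.H875.CL
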